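import Pool.Agent.Helper54.IP.GSwap

/-!
TH-P (MP_d2f54f_al): the inversion symmetry `t -> 1/t`, `s -> 1/s`, `G <-> H`, `lam -> 1 - mu`.
-/

namespace Pool.Agent.Helper54.IP

variable {F : Type*} [Field F]

/-- inversion -/
def GForm.inv {m : ℕ} (g : GForm F m) : GForm F m where
  t := fun i => (g.t i)⁻¹
  s := fun i => (g.s i)⁻¹
  G := g.H
  H := g.G
  lam := fun k => 1 - g.mu k
  mu := fun k => 1 - g.lam k
  lam' := fun k => 1 - g.mu' k
  mu' := fun k => 1 - g.lam' k
  t0 := by rw [g.t0, inv_one]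
  s0 := by rw [g.s0, inv_one]
  t_ne := fun i hi => inv_ne_zero (g.t_ne i hi)
  s_ne := fun i hi => inv_ne_zero (g.s_ne i hi)
  t_inj := fun i j hij hj h => g.t_inj i j hij hj (inv_injective h)
  s_inj := fun i j hij hj h => g.s_inj i j hij hj (inv_injective h)
  G0 := g.H0
  G0' := g.H0'
  H0 := g.G0
  H0' := g.G0'
  U1 := fun j k hj hk => by
    have e := g.U2 j k hj hk
    have ht := g.t_ne j hj
    have hp := pow_ne_zero (k + 1) ht
    apply mul_left_cancel₀ hp
    rw [e, inv_pow]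
    field_simp
    ring
  U2 := fun j k hj hk => by
    have e := g.U1 j k hj hk
    have ht := g.t_ne j hj
    rw [e, inv_pow, inv_pow]
    field_simp
    ring
  V1 := fun j k hj hk => by
    have e := g.V2 j k hj hk
    have ht := g.s_ne k hk
    have hp := pow_ne_zero (j + 1) ht
    apply mul_left_cancel₀ hp
    rw [e, inv_pow]
    field_simp
    ring
  V2 := fun j k hj hk => by
    have e := g.V1 j k hj hk
    have ht := g.s_ne k hk
    rw [e, inv_pow, inv_pow]
    field_simp
    ring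
  lam_ne := fun k hk h => g.mu_ne k hk (by linear_combination -h)
  mu_ne := fun k hk h => g.lam_ne k hk (by linear_combination -h)
  lm_ne := fun k hk h => g.lm_ne k hk (by linear_combination h)
  lam'_ne := fun k hk h => g.mu'_ne k hk (by linear_combination -h)
  mu'_ne := fun k hk h => g.lam'_ne k hk (by linear_combination -h)
  lm'_ne := fun k hk h => g.lm'_ne k hk (by linear_combination h)

@[simp] theorem GForm.inv_t {m : ℕ} (g : GForm F m) (i : ℕ) : g.inv.t i = (g.t i)⁻¹ := rfl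
@[simp] theorem GForm.inv_s {m : ℕ} (g : GForm F m) (i : ℕ) : g.inv.s i = (g.s i)⁻¹ := rfl
@[simp] theorem GForm.inv_G {m : ℕ} (g : GForm F m) (j k : ℕ) : g.inv.G j k = g.H j k := rfl
@[simp] theorem GForm.inv_H {m : ℕ} (g : GForm F m) (j k : ℕ) : g.inv.H j k = g.G j k := rfl
@[simp] theorem GForm.inv_lam {m : ℕ} (g : GForm F m) (k : ℕ) : g.inv.lam k = 1 - g.mu k := rfl
@[simp] theorem GForm.inv_mu {m : ℕ} (g : GForm F m) (k : ℕ) : g.inv.mu k = 1 - g.lam k := rfl
@[simp] theorem GForm.inv_lam' {m : ℕ} (g : GForm F m) (k : ℕ) : g.inv.lam' k = 1 - g.mu' k := rfl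
@[simp] theorem GForm.inv_mu' {m : ℕ} (g : GForm F m) (k : ℕ) : g.inv.mu' k = 1 - g.lam' k := rfl

theorem GForm.inv_swap {m : ℕ} (g : GForm F m) : g.inv.swap = g.swap.inv := rfl

end Pool.Agent.Helper54.IP
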