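import Pool.Agent.Helper16.IP.Lev3
import Pool.Agent.Helper16.IP.Inv

/-!
TH-P (MP_d2f54f_al), diagonal branch: the cell `(3,4)` in divided difference form.
`a = t_1 = s_1`, `b = t_2 = s_2`, `c = t_3 = s_3`, `d = s_4`.
-/

namespace Pool.Agent.Helper16.IP

open Pool.Agent.Helper54.IP

variable {F : Type*} [Field F] {m : ℕ}

theorem G_one (g : GForm F m) {k : ℕ} (hk : k ≤ m) (hm : 1 ≤ m) (h1 : g.t 1 = g.s 1)
    (h : g.t k = g.s k) : g.G k 1 = g.G 1 k := by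
  have r1 := g.row1G (k := k) hm hk
  have q1 := g.swap.row1G (k := k) hm hk
  simp only [GForm.swap_s, GForm.swap_G, GForm.swap_lam'] at q1
  rw [r1, q1, lam0 g hm h1, h]

theorem H_one (g : GForm F m) {k : ℕ} (hk : k ≤ m) (hm : 1 ≤ m) (h1 : g.t 1 = g.s 1)
    (h : g.t k = g.s k) : g.H k 1 = g.H 1 k := by
  have r1 := g.row1H (k := k) hm hk
  have q1 := g.swap.row1H (k := k) hm hk
  simp only [GForm.swap_s, GForm.swap_H, GForm.swap_mu'] at q1
  rw [mu0 g hm h1, h] at q1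
  exact mul_left_cancel₀ (g.s_ne k hk) (q1.trans r1.symm)

theorem lam1 (g : GForm F m) (hm : 2 ≤ m) (hD : g.G 1 1 ≠ g.H 1 1) (h1 : g.t 1 = g.s 1)
    (h2 : g.t 2 = g.s 2) : g.lam 1 = g.lam' 1 := by
  have u := g.U1 1 1 (by omega) (by omega)
  have v := g.V1 1 1 (by omega) (by omega)
  have e := G_one g (k := 2) hm (by omega) h1 h2
  have hd : g.t 1 * (g.G 1 1 - g.H 1 1) ≠ 0 := mul_ne_zero (g.t_ne 1 (by omega)) (sub_ne_zero.2 hD)
  simp only [Nat.reduceAdd, pow_one] at u v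
  rw [← h1] at v
  have : g.t 1 * (g.G 1 1 - g.H 1 1) * (g.lam 1 - g.lam' 1) = 0 := by
    linear_combination u - v + e
  exact sub_eq_zero.1 ((mul_eq_zero.1 this).resolve_left hd)

theorem mu1 (g : GForm F m) (hm : 2 ≤ m) (hD : g.G 1 1 ≠ g.H 1 1) (h1 : g.t 1 = g.s 1)
    (h2 : g.t 2 = g.s 2) : g.mu 1 = g.mu' 1 := by
  have u := g.U2 1 1 (by omega) (by omega)
  have v := g.V2 1 1 (by omega) (by omega)
  have e := H_one g (k := 2) hm (by omega) h1 h2
  have hd : g.t 1 * (g.G 1 1 - g.H 1 1) ≠ 0 := mul_ne_zero (g.t_ne 1 (by omega)) (sub_ne_zero.2 hD)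
  simp only [Nat.reduceAdd, pow_one] at u v
  rw [← h1] at v
  have : g.t 1 * (g.G 1 1 - g.H 1 1) * (g.mu 1 - g.mu' 1) = 0 := by
    linear_combination u - v + g.t 1 ^ 2 * e
  exact sub_eq_zero.1 ((mul_eq_zero.1 this).resolve_left hd)

theorem G_two (g : GForm F m) {k : ℕ} (hk : k ≤ m) (hm : 2 ≤ m) (hD : g.G 1 1 ≠ g.H 1 1)
    (h1 : g.t 1 = g.s 1) (h2 : g.t 2 = g.s 2) (h : g.t k = g.s k) : g.G k 2 = g.G 2 k := by
  have r1 := g.row2G (k := k) hm hk
  have q1 := g.swap.row2G (k := k) hm hk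
  simp only [GForm.swap_s, GForm.swap_G, GForm.swap_H, GForm.swap_lam'] at q1
  rw [r1, q1, lam1 g hm hD h1 h2, h, G_one g hk (by omega) h1 h, H_one g hk (by omega) h1 h]

theorem H_two (g : GForm F m) {k : ℕ} (hk : k ≤ m) (hm : 2 ≤ m) (hD : g.G 1 1 ≠ g.H 1 1)
    (h1 : g.t 1 = g.s 1) (h2 : g.t 2 = g.s 2) (h : g.t k = g.s k) : g.H k 2 = g.H 2 k := by
  have r1 := g.row2H (k := k) hm hk
  have q1 := g.swap.row2H (k := k) hm hk
  simp only [GForm.swap_s, GForm.swap_G, GForm.swap_H, GForm.swap_mu'] at q1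
  rw [mu1 g hm hD h1 h2, h, G_one g hk (by omega) h1 h, H_one g hk (by omega) h1 h] at q1
  exact mul_left_cancel₀ (g.s_ne k hk) (q1.trans r1.symm)

theorem lam2 (g : GForm F m) (hm : 3 ≤ m) (h1 : g.t 1 = g.s 1)
    (h2 : g.t 2 = g.s 2) (h3 : g.t 3 = g.s 3) (hk : g.kap 1 2 ≠ 0) : g.lam 2 = g.lam' 2 := by
  have u := g.U1 1 2 (by omega) (by omega)
  have v := g.V1 2 1 (by omega) (by omega)
  simp only [Nat.reduceAdd] at u v
  rw [← h1, G_one g (k := 3) hm (by omega) h1 h3, G_one g (k := 2) (by omega) (by omega) h1 h2,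
    H_one g (k := 2) (by omega) (by omega) h1 h2] at v
  have : g.kap 1 2 * (g.lam 2 - g.lam' 2) = 0 := by
    rw [GForm.kap]
    linear_combination u - v
  exact sub_eq_zero.1 ((mul_eq_zero.1 this).resolve_left hk)

theorem mu2 (g : GForm F m) (hm : 3 ≤ m) (h1 : g.t 1 = g.s 1)
    (h2 : g.t 2 = g.s 2) (h3 : g.t 3 = g.s 3) (hk : g.kap 1 2 ≠ 0) : g.mu 2 = g.mu' 2 := by
  have u := g.U2 1 2 (by omega) (by omega)
  have v := g.V2 2 1 (by omega) (by omega)
  simp only [Nat.reduceAdd] at u v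
  rw [← h1, H_one g (k := 3) hm (by omega) h1 h3, G_one g (k := 2) (by omega) (by omega) h1 h2,
    H_one g (k := 2) (by omega) (by omega) h1 h2] at v
  have : g.kap 1 2 * (g.mu 2 - g.mu' 2) = 0 := by
    rw [GForm.kap]
    linear_combination u - v
  exact sub_eq_zero.1 ((mul_eq_zero.1 this).resolve_left hk)

/-- Newton interpolation of a quartic at `1, a, b, c`. -/
theorem newton4 {B0 B1 B2 B3 B4 a b c w1 w2 w3 : F} (h0 : B0 + B1 + B2 + B3 + B4 = 1)
    (h1 : B0 + B1 * a + B2 * a ^ 2 + B3 * a ^ 3 + B4 * a ^ 4 = w1)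
    (h2 : B0 + B1 * b + B2 * b ^ 2 + B3 * b ^ 3 + B4 * b ^ 4 = w2)
    (h3 : B0 + B1 * c + B2 * c ^ 2 + B3 * c ^ 3 + B4 * c ^ 4 = w3) :
    (a - 1) * (b - 1) * (b - a) * (w3 - 1) =
      (b - 1) * (b - a) * (c - 1) * (w1 - 1) +
        (c - 1) * (c - a) * ((a - 1) * (w2 - 1) - (b - 1) * (w1 - 1)) +
        (a - 1) * (b - 1) * (b - a) * ((c - 1) * (c - a) * (c - b)) * (B3 + (1 + a + b + c) * B4) := by
  have e : B0 = 1 - B1 - B2 - B3 - B4 := by linear_combination h0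
  subst e
  rw [← h1, ← h2, ← h3]
  ring

/-- the cell `(3,4)`, scalar form: `L = 1 - lam'_2`, `M = mu'_2`, `L3 = 1 - lam_3`. -/
theorem cell34_alg {a b c d x y al de L M L3 G12 H12 G22 H22 G13 G23 G14 G24 G34 H13 H14 H23 H24
      H33 G33 : F}
    (ha1 : a - 1 ≠ 0) (hb1 : b - 1 ≠ 0) (hba : b - a ≠ 0)
    (hx : x ≠ 0) (hal0 : al ≠ 0)
    (hal : al * ((a - 1) * (a * x + y)) = (a - 1) * (y - 1) + x * (b - 1))
    (g12 : a * G12 = a * (a * (al * (1 - x + x * a)) + (1 - al) * ((1 - y) * a + y)))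
    (h12 : a ^ 2 * H12 = (1 - de) * (a * (1 - x + x * a)) + de * ((1 - y) * a + y))
    (g13 : G13 = 1 - x + x * c) (h13 : c * H13 = (1 - y) * c + y)
    (g14 : G14 = 1 - x + x * d) (h14 : d * H14 = (1 - y) * d + y)
    (g22 : b * G22 = b * (b * (al * (1 - x + x * b)) + (1 - al) * ((1 - y) * b + y)))
    (h22 : b ^ 2 * H22 = (1 - de) * (b * (1 - x + x * b)) + de * ((1 - y) * b + y))
    (g23 : G23 = c * (al * G13 + (1 - al) * H13)) (h23 : c * H23 = (1 - de) * G13 + de * H13)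
    (g24 : G24 = d * (al * G14 + (1 - al) * H14)) (h24 : d * H24 = (1 - de) * G14 + de * H14)
    (v1 : G13 = L * (a * G12) + (1 - L) * (a ^ 2 * H12))
    (v2 : G23 = L * (b * G22) + (1 - L) * (b ^ 2 * H22))
    (v3 : G33 = L * (c * G23) + (1 - L) * (c ^ 2 * H23))
    (v4 : G34 = L * (d * G24) + (1 - L) * (d ^ 2 * H24))
    (w1 : a ^ 3 * H13 = (1 - M) * (a * G12) + M * (a ^ 2 * H12))
    (w2 : b ^ 3 * H23 = (1 - M) * (b * G22) + M * (b ^ 2 * H22))
    (w3 : c ^ 3 * H33 = (1 - M) * (c * G23) + M * (c ^ 2 * H23))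
    (u1 : G14 = L3 * (a * G13) + (1 - L3) * (a ^ 3 * H13))
    (u2 : G24 = L3 * (b * G23) + (1 - L3) * (b ^ 3 * H23))
    (u3 : G34 = L3 * (c * G33) + (1 - L3) * (c ^ 3 * H33)) :
    (c - 1) * (c - a) * (c - b) * ((b - 1) * (b - a) * (L3 * L * c + (1 - L3) * (1 - M)) +
      L3 * ((c - 1) * (c - a))) = (b - 1) * (b - a) * (L * ((d - 1) * (d - a) * (d - b))) := by
  -- coefficients
  obtain ⟨m1, hm1⟩ : ∃ z, z = al * (1 - x) + (1 - al) * (1 - y) := ⟨_, rfl⟩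
  obtain ⟨m0, hm0⟩ : ∃ z, z = (1 - al) * y := ⟨_, rfl⟩
  obtain ⟨n2, hn2⟩ : ∃ z, z = (1 - de) * x := ⟨_, rfl⟩
  obtain ⟨n1, hn1⟩ : ∃ z, z = (1 - de) * (1 - x) + de * (1 - y) := ⟨_, rfl⟩
  obtain ⟨n0, hn0⟩ : ∃ z, z = de * y := ⟨_, rfl⟩
  have p1 : a * G12 = al * x * a ^ 3 + m1 * a ^ 2 + m0 * a := by rw [g12, hm1, hm0]; ring
  have p2 : b * G22 = al * x * b ^ 3 + m1 * b ^ 2 + m0 * b := by rw [g22, hm1, hm0]; ring
  have p3 : c * G23 = al * x * c ^ 3 + m1 * c ^ 2 + m0 * c := by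
    rw [g23, g13, hm1, hm0]; linear_combination (1 - al) * c * h13
  have p4 : d * G24 = al * x * d ^ 3 + m1 * d ^ 2 + m0 * d := by
    rw [g24, g14, hm1, hm0]; linear_combination (1 - al) * d * h14
  have q1 : a ^ 2 * H12 = n2 * a ^ 2 + n1 * a + n0 := by rw [h12, hn2, hn1, hn0]; ring
  have q2 : b ^ 2 * H22 = n2 * b ^ 2 + n1 * b + n0 := by rw [h22, hn2, hn1, hn0]; ring
  have q3 : c ^ 2 * H23 = n2 * c ^ 2 + n1 * c + n0 := by
    rw [hn2, hn1, hn0]; linear_combination c * h23 + (1 - de) * c * g13 + de * h13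
  have q4 : d ^ 2 * H24 = n2 * d ^ 2 + n1 * d + n0 := by
    rw [hn2, hn1, hn0]; linear_combination d * h24 + (1 - de) * d * g14 + de * h14
  have hs1 : al * x + m1 + m0 = 1 := by rw [hm1, hm0]; ring
  have hs2 : n2 + n1 + n0 = 1 := by rw [hn2, hn1, hn0]; ring
  rw [p1, q1] at v1 w1
  rw [p2, q2] at v2 w2
  rw [p3, q3] at v3 w3
  rw [p4, q4] at v4
  -- the cubic through G31, G32, G34
  have N1 := newton4 (B0 := (1 - L) * n0) (B1 := L * m0 + (1 - L) * n1)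
    (B2 := L * m1 + (1 - L) * n2) (B3 := L * (al * x)) (B4 := 0) (a := a) (b := b) (c := d)
    (w1 := G13) (w2 := G23) (w3 := G34)
    (by linear_combination L * hs1 + (1 - L) * hs2)
    (by rw [v1]; ring) (by rw [v2]; ring) (by rw [v4]; ring)
  -- the quartic through G14, G24, G34
  have N2 := newton4 (B0 := (1 - L3) * (M * n0)) (B1 := L3 * ((1 - L) * n0) +
      (1 - L3) * ((1 - M) * m0 + M * n1))
    (B2 := L3 * (L * m0 + (1 - L) * n1) + (1 - L3) * ((1 - M) * m1 + M * n2))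
    (B3 := L3 * (L * m1 + (1 - L) * n2) + (1 - L3) * ((1 - M) * (al * x)))
    (B4 := L3 * (L * (al * x))) (a := a) (b := b) (c := c)
    (w1 := G14) (w2 := G24) (w3 := G34)
    (by linear_combination (L3 * L + (1 - L3) * (1 - M)) * hs1
          + (L3 * (1 - L) + (1 - L3) * M) * hs2)
    (by rw [u1, w1, v1]; ring) (by rw [u2, w2, v2]; ring) (by rw [u3, w3, v3]; ring)
  -- second difference of the cubic
  have N3 : (a - 1) * (G23 - 1) - (b - 1) * (G13 - 1) =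
      (a - 1) * (b - 1) * (b - a) * (L * m1 + (1 - L) * n2 + (1 + a + b) * (L * (al * x))) := by
    rw [v1, v2]
    linear_combination (-(L * (b - a))) * hs1 - (1 - L) * (b - a) * hs2
  have e3 : (a - 1) * (G23 - 1) = x * (c - 1) * ((b - 1) + (a - 1) * al * (c - a)) := by
    rw [g23, g13]
    linear_combination (1 - al) * (a - 1) * h13 + (c - 1) * hal
  have e4 : (a - 1) * (G24 - 1) = x * (d - 1) * ((b - 1) + (a - 1) * al * (d - a)) := by
    rw [g24, g14]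
    linear_combination (1 - al) * (a - 1) * h14 + (d - 1) * hal
  have f3 : (a - 1) * (G23 - 1) - (b - 1) * (G13 - 1) = (a - 1) * (x * al * ((c - 1) * (c - a))) := by
    rw [e3, g13]; ring
  have f4 : (a - 1) * (G24 - 1) - (b - 1) * (G14 - 1) = (a - 1) * (x * al * ((d - 1) * (d - a))) := by
    rw [e4, g14]; ring
  rw [f3] at N1 N3
  rw [f4] at N2
  have K : (b - 1) * (b - a) * (L * m1 + (1 - L) * n2 + (1 + a + b) * (L * (al * x))) =
      x * al * ((c - 1) * (c - a)) := by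
    apply mul_left_cancel₀ ha1
    linear_combination -N3
  have hne : (a - 1) * (b - 1) * (b - a) * (x * al) ≠ 0 :=
    mul_ne_zero (mul_ne_zero (mul_ne_zero ha1 hb1) hba) (mul_ne_zero hx hal0)
  apply mul_left_cancel₀ hne
  rw [g13] at N1
  rw [g14] at N2
  linear_combination (b - 1) * (b - a) * (N1 - N2)
    - (a - 1) * (b - 1) * (b - a) * ((c - 1) * (c - a) * (c - b)) * L3 * K

theorem al_ne (g : GForm F m) (hm : 2 ≤ m) : 1 - g.lam' 1 ≠ 0 :=
  sub_ne_zero.2 (g.lam'_ne 1 (by omega)).symm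

/-- the cell `(3,4)` on a diagonal corner -/
theorem cell34 (g : GForm F m) (hm : 4 ≤ m) (hD : g.G 1 1 ≠ g.H 1 1) (h1 : g.t 1 = g.s 1)
    (h2 : g.t 2 = g.s 2) (h3 : g.t 3 = g.s 3) :
    (g.s 3 - 1) * (g.s 3 - g.t 1) * (g.s 3 - g.t 2) * ((g.t 2 - 1) * (g.t 2 - g.t 1) *
      ((1 - g.lam 3) * (1 - g.lam' 2) * g.s 3 + (1 - (1 - g.lam 3)) * (1 - g.mu' 2)) +
      (1 - g.lam 3) * ((g.s 3 - 1) * (g.s 3 - g.t 1))) =
    (g.t 2 - 1) * (g.t 2 - g.t 1) * ((1 - g.lam' 2) *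
      ((g.s 4 - 1) * (g.s 4 - g.t 1) * (g.s 4 - g.t 2))) := by
  have ha1 := t1_sub g (by omega)
  have hb1 := t2_sub g (by omega)
  have hba : g.t 2 - g.t 1 ≠ 0 := sub_ne_zero.2 (g.t_inj 1 2 (by omega) (by omega)).symm
  have hx : 1 - g.lam' 0 ≠ 0 := sub_ne_zero.2 (g.lam'_ne 0 (by omega)).symm
  have r11 := g.row1G (k := 1) (by omega) (by omega)
  have q11 := g.row1H (k := 1) (by omega) (by omega)
  have r12 := g.row1G (k := 2) (by omega) (by omega)
  have q12 := g.row1H (k := 2) (by omega) (by omega)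
  have r13 := g.row1G (k := 3) (by omega) (by omega)
  have q13 := g.row1H (k := 3) (by omega) (by omega)
  have r14 := g.row1G (k := 4) (by omega) (by omega)
  have q14 := g.row1H (k := 4) (by omega) (by omega)
  have r21 := g.row2G (k := 1) (by omega) (by omega)
  have q21 := g.row2H (k := 1) (by omega) (by omega)
  have r22 := g.row2G (k := 2) (by omega) (by omega)
  have q22 := g.row2H (k := 2) (by omega) (by omega)
  have r23 := g.row2G (k := 3) (by omega) (by omega)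
  have q23 := g.row2H (k := 3) (by omega) (by omega)
  have r24 := g.row2G (k := 4) (by omega) (by omega)
  have q24 := g.row2H (k := 4) (by omega) (by omega)
  have v1 := g.V1 2 1 (by omega) (by omega)
  have v2 := g.V1 2 2 (by omega) (by omega)
  have v3 := g.V1 2 3 (by omega) (by omega)
  have v4 := g.V1 2 4 (by omega) (by omega)
  have w1 := g.V2 2 1 (by omega) (by omega)
  have w2 := g.V2 2 2 (by omega) (by omega)
  have w3 := g.V2 2 3 (by omega) (by omega)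
  have u1 := g.U1 1 3 (by omega) (by omega)
  have u2 := g.U1 2 3 (by omega) (by omega)
  have u3 := g.U1 3 3 (by omega) (by omega)
  simp only [Nat.reduceAdd] at v1 v2 v3 v4 w1 w2 w3 u1 u2 u3
  have G21 := G_one g (k := 2) (by omega) (by omega) h1 h2
  have H21 := H_one g (k := 2) (by omega) (by omega) h1 h2
  have G31 := G_one g (k := 3) (by omega) (by omega) h1 h3
  have H31 := H_one g (k := 3) (by omega) (by omega) h1 h3
  have G32 := G_two g (k := 3) (by omega) (by omega) hD h1 h2 h3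
  have H32 := H_two g (k := 3) (by omega) (by omega) hD h1 h2 h3
  rw [G21] at r21 v1 w1
  rw [H21] at q21 v1 w1
  rw [G31] at v1
  rw [H31] at w1
  rw [G32] at v2
  rw [H32] at w2
  rw [← h1] at r11 q11 r21 q21 v1 w1
  rw [← h2] at r12 q12 r22 q22 v2 w2
  rw [h3] at u3
  exact cell34_alg (a := g.t 1) (b := g.t 2) (c := g.s 3) (d := g.s 4) (x := 1 - g.lam' 0)
    (y := g.mu' 0) (al := 1 - g.lam' 1) (de := g.mu' 1) (L := 1 - g.lam' 2) (M := g.mu' 2)
    (L3 := 1 - g.lam 3) (G12 := g.G 1 2) (H12 := g.H 1 2) (G22 := g.G 2 2) (H22 := g.H 2 2)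
    (G13 := g.G 1 3) (H13 := g.H 1 3) (G23 := g.G 2 3) (H23 := g.H 2 3) (G14 := g.G 1 4)
    (H14 := g.H 1 4) (G24 := g.G 2 4) (H24 := g.H 2 4) (G33 := g.G 3 3) (H33 := g.H 3 3)
    (G34 := g.G 3 4) ha1 hb1 hba hx (al_ne g (by omega)) (al_eq g (by omega) h1)
    (by rw [r21, r11]; linear_combination g.t 1 * g.lam' 1 * q11)
    (by linear_combination g.t 1 * q21 + g.t 1 * (1 - g.mu' 1) * r11 + g.mu' 1 * q11)
    (by rw [r13]; ring) q13 (by rw [r14]; ring) q14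
    (by rw [r22, r12]; linear_combination g.t 2 * g.lam' 1 * q12)
    (by linear_combination g.t 2 * q22 + g.t 2 * (1 - g.mu' 1) * r12 + g.mu' 1 * q12)
    (by rw [r23]; ring) q23 (by rw [r24]; ring) q24
    (by rw [v1]; ring) (by rw [v2]; ring) (by rw [v3]; ring) (by rw [v4]; ring)
    w1 w2 w3 (by rw [u1]; ring) (by rw [u2]; ring) (by rw [u3]; ring)

end Pool.Agent.Helper16.IP
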