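import Pool.Agent.Helper16.IP.RevPhi2

/-!
TH-P phase 2, n = 5: the split numbers of the reversal of the family D5.
-/

namespace Pool.Agent.Helper16.IP

open Pool.Agent.Helper54.IP Finset

variable {F : Type*} [Field F]

theorem d5r_alg1 {a c d φ : F} (ha : a ≠ 0) (hc : c ≠ 0) (hd : d ≠ 0)
    (h : φ * (c + a * c + d) = (c + d) * (d - 1)) :
    -(1 / a) * (1 / d * φ + (1 - 1 / d) * (a - 1)) * (a⁻¹ * c⁻¹ + a⁻¹ * d⁻¹ + d⁻¹) =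
      (d⁻¹ - 1) * (a⁻¹ * c⁻¹ + d⁻¹) := by
  field_simp
  linear_combination (-1 : F) * h

theorem d5r_alg2 {a b c d φ : F} (ha : a ≠ 0) (hb : b ≠ 0) (hc : c ≠ 0) (hd : d ≠ 0)
    (a1 : a - 1 ≠ 0) (c1 : c - 1 ≠ 0)
    (q : (1 - b) * (d - a ^ 2 * c) + (a - c) * (d - a * b) = 0)
    (r : (d - b) * (d ^ 2 - a * c ^ 2) + d * (c - a) * (d - b * c) = 0)
    (h : d * φ = -(a * d * (1 + a + b - c - d) + a * b * c - b * c * d * (1 + a))) :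
    -(1 / b ^ 2) * (1 / a ^ 3 * φ + (1 - 1 / a ^ 3) * ((b - 1) * (b - a) / (a - 1))) *
        (c⁻¹ * d⁻¹) =
      b⁻¹ * c⁻¹ ^ 2 * d⁻¹ - a⁻¹ * c⁻¹ * d⁻¹ + a⁻¹ * c⁻¹ * d⁻¹ ^ 2 + a⁻¹ * c⁻¹ ^ 2 * d⁻¹ -
        a⁻¹ * b⁻¹ * c⁻¹ ^ 2 - a⁻¹ ^ 2 * c⁻¹ * d⁻¹ - a⁻¹ ^ 2 * b⁻¹ * d⁻¹ +
        a⁻¹ ^ 2 * b⁻¹ * c⁻¹ * d⁻¹ := by
  have key : -(-(a * d * (1 + a + b - c - d) + a * b * c - b * c * d * (1 + a)) +
      d * (a ^ 2 + a + 1) * (b - 1) * (b - a)) * c -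
      (a ^ 2 * d - a * b * c * d + a * b * c + a * b * d - a * d ^ 2 - b * c * d - c ^ 2 * d +
        c * d) * (a * b) = 0 := by
    apply mul_left_cancel₀ c1
    rw [mul_zero]
    linear_combination (a * c * d - a * d - b * c - b * d + c * d + d ^ 2) * q +
      (-a + b + c - 1) * r
  have e1 : (1 - 1 / a ^ 3) * ((b - 1) * (b - a) / (a - 1)) =
      (a ^ 2 + a + 1) * (b - 1) * (b - a) / a ^ 3 := by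
    field_simp
    ring
  rw [e1]
  field_simp
  linear_combination key - c * h

theorem d5r_alg3 {a b c d φ : F} (ha : a ≠ 0) (hb : b ≠ 0) (hc : c ≠ 0) (hd : d ≠ 0)
    (b1 : b - 1 ≠ 0) (ba : b - a ≠ 0)
    (q : (1 - b) * (d - a ^ 2 * c) + (a - c) * (d - a * b) = 0)
    (r : (d - b) * (d ^ 2 - a * c ^ 2) + d * (c - a) * (d - b * c) = 0)
    (h : d * φ = c * d * (1 + a - b - c - d - a * b) + a * b * (c + d)) :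
    -(b ^ 2 / (b * c ^ 3)) * (d ^ 2 / (d * b ^ 3) * φ + (1 - d ^ 2 / (d * b ^ 3)) *
        ((c - 1) * (c - a) * (c - b) / ((b - 1) * (b - a)))) * (a⁻¹ * d⁻¹) =
      -(b⁻¹ * c⁻¹ ^ 2 * d⁻¹ - a⁻¹ * c⁻¹ * d⁻¹ + a⁻¹ * c⁻¹ * d⁻¹ ^ 2 + a⁻¹ * c⁻¹ ^ 2 * d⁻¹ -
        a⁻¹ * b⁻¹ * c⁻¹ ^ 2 - a⁻¹ ^ 2 * c⁻¹ * d⁻¹ - a⁻¹ ^ 2 * b⁻¹ * d⁻¹ +
        a⁻¹ ^ 2 * b⁻¹ * c⁻¹ * d⁻¹) := by
  field_simp
  linear_combination (-a * b * d ^ 2 + a * d ^ 2 - b ^ 3 * d - b ^ 2 * c ^ 2 + b ^ 2 * c * d +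
      b ^ 2 * d ^ 2 + b * c ^ 2 * d + b * d ^ 2 - c * d ^ 2 - d ^ 3) * q +
    (a * b ^ 2 * c - 2 * a * b ^ 2 - a * b * c + a * b + a * d + b ^ 3 + b ^ 2 * c - b ^ 2 -
      b * d - c * d + d) * r - a * d * (b - 1) * (b - a) * h

theorem d5r_alg4 {a b c d φ : F} (ha : a ≠ 0) (hc : c ≠ 0) (hd : d ≠ 0)
    (c1 : c - 1 ≠ 0) (ca : c - a ≠ 0) (cb : c - b ≠ 0)
    (r : (d - b) * (d ^ 2 - a * c ^ 2) + d * (c - a) * (d - b * c) = 0)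
    (h : φ * (a * c + a * d + d) = -(d ^ 2 * (a + 1) * (d - 1))) :
    -(c ^ 3 / (c * d ^ 4)) * (d ^ 3 / (d * c ^ 3) * φ + (1 - d ^ 3 / (d * c ^ 3)) *
        ((d - 1) * (d - a) * (d - b) * (d - c) / ((c - 1) * (c - a) * (c - b)))) *
        (c⁻¹ + a⁻¹ * c⁻¹ + d⁻¹) =
      -(d⁻¹ * (d⁻¹ - 1) * (a⁻¹ * c⁻¹ + d⁻¹)) := by
  field_simp
  linear_combination (d - 1) * (a * c ^ 3 - a * c ^ 2 * d - a * c * d ^ 2 + a * d ^ 3 +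
      c ^ 2 * d - 2 * c * d ^ 2 + d ^ 3) * r -
    d ^ 2 * ((c - 1) * (c - a) * (c - b)) * h

end Pool.Agent.Helper16.IP
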