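import Pool.Agent.Helper16.IP.D5Rev
import Pool.Agent.Helper82.IP.N5List

/-!
TH-P phase 2, n = 5: the reversal of the family D5.
-/

namespace Pool.Agent.Helper16.IP

open Pool.Agent.Helper54.IP Pool.Agent.Helper82.IP Finset

variable {F : Type*} [Field F]

/-- The second family of parameter arrays of dimension 5, the main family excluded: the
parameter arrays of the reversed pairs `(K⁻¹, K*)` of the pairs of the family D5.
`a, b, c, d = t 1, t 2, t 3, t 4`. -/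
structure D5S (t s f : ℕ → F) : Prop where
  t0 : t 0 = 1
  s0 : s 0 = 1
  s1 : s 1 * t 3 = t 4
  s2 : s 2 * t 2 = t 4
  s3 : s 3 * t 1 = t 4
  s4 : s 4 = t 4
  n1 : t 1 ≠ 0
  n2 : t 2 ≠ 0
  n3 : t 3 ≠ 0
  n4 : t 4 ≠ 0
  d01 : t 1 ≠ 1
  d02 : t 2 ≠ 1
  d03 : t 3 ≠ 1
  d04 : t 4 ≠ 1
  d12 : t 1 ≠ t 2
  d13 : t 1 ≠ t 3
  d14 : t 1 ≠ t 4
  d23 : t 2 ≠ t 3
  d24 : t 2 ≠ t 4
  d34 : t 3 ≠ t 4
  q : (1 - t 2) * (t 4 - t 1 ^ 2 * t 3) + (t 1 - t 3) * (t 4 - t 1 * t 2) = 0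
  r : (t 4 - t 2) * (t 4 ^ 2 - t 1 * t 3 ^ 2) + t 4 * (t 3 - t 1) * (t 4 - t 2 * t 3) = 0
  cd : t 3 + t 4 ≠ 0
  x0 : t 4 + (t 1 + 1) * t 3 ≠ 0
  y0 : t 1 * t 3 + t 1 * t 4 + t 4 ≠ 0
  a1 : t 1 + 1 ≠ 0
  ac : t 1 * t 3 + t 4 ≠ 0
  bd : t 2 ^ 2 ≠ t 4
  g2n : t 1 * t 2 * t 3 * t 4 + t 2 * t 3 * t 4 + t 1 * t 3 * t 4 - t 1 * t 2 * t 4
    - t 1 * t 2 * t 3 + t 1 * t 4 ^ 2 - t 1 ^ 2 * t 4 - t 1 * t 4 ≠ 0
  g3n : t 1 * t 2 * t 3 * t 4 + t 3 ^ 2 * t 4 + t 3 * t 4 ^ 2 + t 2 * t 3 * t 4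
    - t 1 * t 3 * t 4 - t 1 * t 2 * t 4 - t 1 * t 2 * t 3 - t 3 * t 4 ≠ 0
  f1 : f 1 * (t 1 * t 3 + t 1 * t 4 + t 4) = (t 4 - 1) * (t 1 * t 3 + t 4)
  f2 : t 3 * t 4 * f 2 = t 2 * t 3 ^ 2 * t 4 - t 1 * t 3 * t 4 + t 1 * t 3 * t 4 ^ 2
    + t 1 * t 3 ^ 2 * t 4 - t 1 * t 2 * t 3 ^ 2 - t 1 ^ 2 * t 3 * t 4 - t 1 ^ 2 * t 2 * t 4
    + t 1 ^ 2 * t 2 * t 3 * t 4
  f3 : t 1 * t 4 * f 3 = -(t 2 * t 3 ^ 2 * t 4 - t 1 * t 3 * t 4 + t 1 * t 3 * t 4 ^ 2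
    + t 1 * t 3 ^ 2 * t 4 - t 1 * t 2 * t 3 ^ 2 - t 1 ^ 2 * t 3 * t 4 - t 1 ^ 2 * t 2 * t 4
    + t 1 ^ 2 * t 2 * t 3 * t 4)
  f4 : f 4 * (t 4 + (t 1 + 1) * t 3) = -(t 4 * (t 4 - 1) * (t 1 * t 3 + t 4))

theorem rev4_1 {t s f : ℕ → F} (t0 : t 0 = 1) :
    revF 4 t s f 1 = -(1 / t 1) * (1 / s 4 * f 1 + (1 - 1 / s 4) * (t 1 - 1)) := by
  unfold revF
  simp [prod_range_succ, t0]

theorem rev4_2 {t s f : ℕ → F} (t0 : t 0 = 1) (n1 : t 1 ≠ 0) (n2 : s 4 ≠ 0) :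
    revF 4 t s f 2 = -(1 / t 2 ^ 2) * (1 / t 1 ^ 3 * f 2 +
      (1 - 1 / t 1 ^ 3) * ((t 2 - 1) * (t 2 - t 1) / (t 1 - 1))) := by
  unfold revF
  have e1 : t 1 ^ 1 / (t 1 * t 2 ^ 2) = 1 / t 2 ^ 2 := by field_simp
  have e2 : s 4 ^ 1 / (s 4 * t 1 ^ 3) = 1 / t 1 ^ 3 := by field_simp
  simp only [prod_range_succ, range_zero, prod_empty, one_mul, t0, Nat.reduceSub, e1, e2]

theorem rev4_3 {t s f : ℕ → F} (t0 : t 0 = 1) :
    revF 4 t s f 3 = -(t 2 ^ 2 / (t 2 * t 3 ^ 3)) * (s 4 ^ 2 / (s 4 * t 2 ^ 3) * f 3 +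
      (1 - s 4 ^ 2 / (s 4 * t 2 ^ 3)) *
        ((t 3 - 1) * (t 3 - t 1) * (t 3 - t 2) / ((t 2 - 1) * (t 2 - t 1)))) := by
  unfold revF
  simp only [prod_range_succ, range_zero, prod_empty, one_mul, t0, Nat.reduceSub]

theorem rev4_4 {t s f : ℕ → F} (t0 : t 0 = 1) :
    revF 4 t s f 4 = -(t 3 ^ 3 / (t 3 * t 4 ^ 4)) * (s 4 ^ 3 / (s 4 * t 3 ^ 3) * f 4 +
      (1 - s 4 ^ 3 / (s 4 * t 3 ^ 3)) *
        ((t 4 - 1) * (t 4 - t 1) * (t 4 - t 2) * (t 4 - t 3) /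
          ((t 3 - 1) * (t 3 - t 1) * (t 3 - t 2)))) := by
  unfold revF
  simp only [prod_range_succ, range_zero, prod_empty, one_mul, t0, Nat.reduceSub]

theorem D5S_of_D5L {t s f : ℕ → F} (h : D5L t s f) :
    D5S (fun i => (t i)⁻¹) (fun i => s (4 - i) / s 4) (revF 4 t s f) := by
  have n1 := h.n1
  have n2 := h.n2
  have n3 := h.n3
  have n4 := h.n4
  have m4 : s 4 ≠ 0 := by rw [h.s4]; exact n4
  have inv1 : ∀ {x : F}, x ≠ 1 → x⁻¹ ≠ 1 := fun {x} hx e => hx (by simpa using e)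
  have inv2 : ∀ {x y : F}, x ≠ y → x⁻¹ ≠ y⁻¹ := fun {x y} hx e => hx (inv_injective e)
  constructor
  · simp [h.t0]
  · simp [m4]
  · simp only [Nat.reduceSub, h.s3, h.s4]
    field_simp
  · simp only [Nat.reduceSub, h.s2, h.s4]
    field_simp
  · simp only [Nat.reduceSub, h.s1, h.s4]
    field_simp
  · simp only [Nat.reduceSub, h.s0, h.s4]
    field_simp
  · exact inv_ne_zero n1
  · exact inv_ne_zero n2
  · exact inv_ne_zero n3
  · exact inv_ne_zero n4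
  · exact inv1 h.d01
  · exact inv1 h.d02
  · exact inv1 h.d03
  · exact inv1 h.d04
  · exact inv2 h.d12
  · exact inv2 h.d13
  · exact inv2 h.d14
  · exact inv2 h.d23
  · exact inv2 h.d24
  · exact inv2 h.d34
  · have := h.q
    field_simp
    linear_combination this
  · have := h.r
    field_simp
    linear_combination this
  · intro e
    apply h.cd
    field_simp at e
    linear_combination e
  · intro e
    apply h.y0
    field_simp at e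
    linear_combination e
  · intro e
    apply h.x0
    field_simp at e
    linear_combination e
  · intro e
    apply h.a1
    field_simp at e
    linear_combination e
  · intro e
    apply h.ac
    field_simp at e
    linear_combination e
  · intro e
    apply h.bd
    have e' : (t 2 ^ 2)⁻¹ = (t 4)⁻¹ := by rw [← inv_pow]; exact e
    exact inv_injective e'
  · intro e
    apply h.f2n
    apply (mul_eq_zero.1 _).resolve_left n4
    rw [h.f2]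
    field_simp at e
    linear_combination -e
  · intro e
    apply h.f3n
    apply (mul_eq_zero.1 _).resolve_left n4
    rw [h.f3]
    field_simp at e
    linear_combination e
  · have e := d5r_alg1 n1 n3 n4 (φ := f 1) (by linear_combination h.f1)
    rw [rev4_1 h.t0, h.s4]
    exact e
  · have e := d5r_alg2 n1 n2 n3 n4 (sub_ne_zero.2 h.d01) (sub_ne_zero.2 h.d03) h.q h.r h.f2
    rw [rev4_2 h.t0 n1 m4]
    linear_combination e
  · have e := d5r_alg3 n1 n2 n3 n4 (sub_ne_zero.2 h.d02) (sub_ne_zero.2 h.d12.symm) h.q h.r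
      (φ := f 3) (by linear_combination h.f3)
    rw [rev4_3 h.t0, h.s4]
    linear_combination e
  · have e := d5r_alg4 n1 n3 n4 (sub_ne_zero.2 h.d03) (sub_ne_zero.2 h.d13.symm)
      (sub_ne_zero.2 h.d23.symm) h.r h.f4
    rw [rev4_4 h.t0, h.s4]
    linear_combination e

theorem D5S.congr {t s f t' s' f' : ℕ → F} (h : D5S t s f) (ht : ∀ i, i ≤ 4 → t i = t' i)
    (hs : ∀ i, i ≤ 4 → s i = s' i) (hf : ∀ i, 1 ≤ i → i ≤ 4 → f i = f' i) : D5S t' s' f' := by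
  have a0 := ht 0 (by omega)
  have a1 := ht 1 (by omega)
  have a2 := ht 2 (by omega)
  have a3 := ht 3 (by omega)
  have a4 := ht 4 (by omega)
  have b0 := hs 0 (by omega)
  have b1 := hs 1 (by omega)
  have b2 := hs 2 (by omega)
  have b3 := hs 3 (by omega)
  have b4 := hs 4 (by omega)
  have c1 := hf 1 (by omega) (by omega)
  have c2 := hf 2 (by omega) (by omega)
  have c3 := hf 3 (by omega) (by omega)
  have c4 := hf 4 (by omega) (by omega)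
  cases h
  constructor <;> (try simp only [← a0, ← a1, ← a2, ← a3, ← a4, ← b0, ← b1, ← b2, ← b3, ← b4,
    ← c1, ← c2, ← c3, ← c4]) <;> assumption

theorem D5L_congr {t s f t' s' f' : ℕ → F} (h : D5L t s f) (ht : ∀ i, i ≤ 4 → t i = t' i)
    (hs : ∀ i, i ≤ 4 → s i = s' i) (hf : ∀ i, 1 ≤ i → i ≤ 4 → f i = f' i) : D5L t' s' f' := by
  have a0 := ht 0 (by omega)
  have a1 := ht 1 (by omega)
  have a2 := ht 2 (by omega)
  have a3 := ht 3 (by omega)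
  have a4 := ht 4 (by omega)
  have b0 := hs 0 (by omega)
  have b1 := hs 1 (by omega)
  have b2 := hs 2 (by omega)
  have b3 := hs 3 (by omega)
  have b4 := hs 4 (by omega)
  have c1 := hf 1 (by omega) (by omega)
  have c2 := hf 2 (by omega) (by omega)
  have c3 := hf 3 (by omega) (by omega)
  have c4 := hf 4 (by omega) (by omega)
  cases h
  constructor <;> (try simp only [← a0, ← a1, ← a2, ← a3, ← a4, ← b0, ← b1, ← b2, ← b3, ← b4,
    ← c1, ← c2, ← c3, ← c4]) <;> assumption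

/-- the split numbers of D5S are determined by `t` -/
theorem D5S.f_unique {t s f f' : ℕ → F} (h : D5S t s f) (h' : D5S t s f') :
    ∀ i, 1 ≤ i → i ≤ 4 → f i = f' i := by
  intro i h1 h2
  interval_cases i
  · apply mul_right_cancel₀ h.y0
    rw [h.f1, h'.f1]
  · apply mul_left_cancel₀ (mul_ne_zero h.n3 h.n4)
    rw [h.f2, h'.f2]
  · apply mul_left_cancel₀ (mul_ne_zero h.n1 h.n4)
    rw [h.f3, h'.f3]
  · apply mul_right_cancel₀ h.x0
    rw [h.f4, h'.f4]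

theorem D5S.t_ne {t s f : ℕ → F} (h : D5S t s f) : ∀ i, i ≤ 4 → t i ≠ 0 := by
  intro i hi
  interval_cases i
  · rw [h.t0]; exact one_ne_zero
  · exact h.n1
  · exact h.n2
  · exact h.n3
  · exact h.n4

theorem D5S.s4_ne {t s f : ℕ → F} (h : D5S t s f) : s 4 ≠ 0 := by
  rw [h.s4]; exact h.n4

theorem D5S.t_inj {t s f : ℕ → F} (h : D5S t s f) : ∀ i j, i < j → j ≤ 4 → t i ≠ t j := by
  intro i j hij hj
  have h01 : t 0 ≠ t 1 := by rw [h.t0]; exact h.d01.symm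
  have h02 : t 0 ≠ t 2 := by rw [h.t0]; exact h.d02.symm
  have h03 : t 0 ≠ t 3 := by rw [h.t0]; exact h.d03.symm
  have h04 : t 0 ≠ t 4 := by rw [h.t0]; exact h.d04.symm
  have h12 := h.d12
  have h13 := h.d13
  have h14 := h.d14
  have h23 := h.d23
  have h24 := h.d24
  have h34 := h.d34
  interval_cases j <;> interval_cases i <;> assumption

/-- the reversal of D5S is D5 -/
theorem D5S.rev {t s f : ℕ → F} (h : D5S t s f) :
    D5L (fun i => (t i)⁻¹) (fun i => s (4 - i) / s 4) (revF 4 t s f) := by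
  have n1 := h.n1
  have n2 := h.n2
  have n3 := h.n3
  have n4 := h.n4
  have m4 := h.s4_ne
  obtain ⟨φ, p1, p2, p3, p4⟩ : ∃ φ : ℕ → F,
      φ 1 * ((t 4)⁻¹ + ((t 1)⁻¹ + 1) * (t 3)⁻¹) = ((t 3)⁻¹ + (t 4)⁻¹) * ((t 4)⁻¹ - 1) ∧
      (t 4)⁻¹ * φ 2 = -((t 1)⁻¹ * (t 4)⁻¹ * (1 + (t 1)⁻¹ + (t 2)⁻¹ - (t 3)⁻¹ - (t 4)⁻¹) +
        (t 1)⁻¹ * (t 2)⁻¹ * (t 3)⁻¹ - (t 2)⁻¹ * (t 3)⁻¹ * (t 4)⁻¹ * (1 + (t 1)⁻¹)) ∧
      (t 4)⁻¹ * φ 3 = (t 3)⁻¹ * (t 4)⁻¹ + (t 1)⁻¹ * (t 2)⁻¹ * (t 4)⁻¹ +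
        (t 1)⁻¹ * (t 2)⁻¹ * (t 3)⁻¹ + (t 1)⁻¹ * (t 3)⁻¹ * (t 4)⁻¹
        - (t 2)⁻¹ * (t 3)⁻¹ * (t 4)⁻¹ - (t 3)⁻¹ ^ 2 * (t 4)⁻¹ - (t 3)⁻¹ * (t 4)⁻¹ ^ 2
        - (t 1)⁻¹ * (t 2)⁻¹ * (t 3)⁻¹ * (t 4)⁻¹ ∧
      φ 4 * ((t 1)⁻¹ * (t 3)⁻¹ + (t 1)⁻¹ * (t 4)⁻¹ + (t 4)⁻¹) =
        -((t 4)⁻¹ ^ 2 * ((t 1)⁻¹ + 1) * ((t 4)⁻¹ - 1)) := by
    have x0 : (t 4)⁻¹ + ((t 1)⁻¹ + 1) * (t 3)⁻¹ ≠ 0 := by
      intro e
      apply h.y0
      field_simp at e
      linear_combination e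
    have y0 : (t 1)⁻¹ * (t 3)⁻¹ + (t 1)⁻¹ * (t 4)⁻¹ + (t 4)⁻¹ ≠ 0 := by
      intro e
      apply h.x0
      field_simp at e
      linear_combination e
    have i4 := inv_ne_zero n4
    refine ⟨fun i => match i with
      | 1 => ((t 3)⁻¹ + (t 4)⁻¹) * ((t 4)⁻¹ - 1) / ((t 4)⁻¹ + ((t 1)⁻¹ + 1) * (t 3)⁻¹)
      | 2 => (-((t 1)⁻¹ * (t 4)⁻¹ * (1 + (t 1)⁻¹ + (t 2)⁻¹ - (t 3)⁻¹ - (t 4)⁻¹) +
        (t 1)⁻¹ * (t 2)⁻¹ * (t 3)⁻¹ - (t 2)⁻¹ * (t 3)⁻¹ * (t 4)⁻¹ * (1 + (t 1)⁻¹))) / (t 4)⁻¹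
      | 3 => ((t 3)⁻¹ * (t 4)⁻¹ + (t 1)⁻¹ * (t 2)⁻¹ * (t 4)⁻¹ +
        (t 1)⁻¹ * (t 2)⁻¹ * (t 3)⁻¹ + (t 1)⁻¹ * (t 3)⁻¹ * (t 4)⁻¹
        - (t 2)⁻¹ * (t 3)⁻¹ * (t 4)⁻¹ - (t 3)⁻¹ ^ 2 * (t 4)⁻¹ - (t 3)⁻¹ * (t 4)⁻¹ ^ 2
        - (t 1)⁻¹ * (t 2)⁻¹ * (t 3)⁻¹ * (t 4)⁻¹) / (t 4)⁻¹
      | _ => -((t 4)⁻¹ ^ 2 * ((t 1)⁻¹ + 1) * ((t 4)⁻¹ - 1)) /
        ((t 1)⁻¹ * (t 3)⁻¹ + (t 1)⁻¹ * (t 4)⁻¹ + (t 4)⁻¹), ?_, ?_, ?_, ?_⟩
    · exact div_mul_cancel₀ _ x0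
    · exact mul_div_cancel₀ _ i4
    · exact mul_div_cancel₀ _ i4
    · exact div_mul_cancel₀ _ y0
  have inv1 : ∀ {x : F}, x ≠ 1 → x⁻¹ ≠ 1 := fun {x} hx e => hx (by simpa using e)
  have inv2 : ∀ {x y : F}, x ≠ y → x⁻¹ ≠ y⁻¹ := fun {x y} hx e => hx (inv_injective e)
  have H : D5L (fun i => (t i)⁻¹) (fun i => s (4 - i) / s 4) φ := by
    constructor
    · simp [h.t0]
    · simp [m4]
    · have := h.s3
      simp only [Nat.reduceSub]
      rw [h.s4]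
      field_simp
      linear_combination this
    · have := h.s2
      simp only [Nat.reduceSub]
      rw [h.s4]
      field_simp
      linear_combination this
    · have := h.s1
      simp only [Nat.reduceSub]
      rw [h.s4]
      field_simp
      linear_combination this
    · simp only [Nat.reduceSub, h.s0, h.s4]
      field_simp
    · exact inv_ne_zero n1
    · exact inv_ne_zero n2
    · exact inv_ne_zero n3
    · exact inv_ne_zero n4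
    · exact inv1 h.d01
    · exact inv1 h.d02
    · exact inv1 h.d03
    · exact inv1 h.d04
    · exact inv2 h.d12
    · exact inv2 h.d13
    · exact inv2 h.d14
    · exact inv2 h.d23
    · exact inv2 h.d24
    · exact inv2 h.d34
    · have := h.q
      field_simp
      linear_combination this
    · have := h.r
      field_simp
      linear_combination this
    · intro e
      apply h.cd
      field_simp at e
      linear_combination e
    · intro e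
      apply h.y0
      field_simp at e
      linear_combination e
    · intro e
      apply h.x0
      field_simp at e
      linear_combination e
    · intro e
      apply h.a1
      field_simp at e
      linear_combination e
    · intro e
      apply h.ac
      field_simp at e
      linear_combination e
    · intro e
      apply h.bd
      have e' : (t 2 ^ 2)⁻¹ = (t 4)⁻¹ := by rw [← inv_pow]; exact e
      exact inv_injective e'
    · exact p1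
    · exact p2
    · exact p3
    · exact p4
    · intro e
      rw [e, mul_zero] at p2
      apply h.g2n
      field_simp at p2
      linear_combination p2
    · intro e
      rw [e, mul_zero] at p3
      apply h.g3n
      field_simp at p3
      linear_combination -p3
  have K := D5S_of_D5L H
  have K2 : D5S t s (revF 4 (fun i => (t i)⁻¹) (fun i => s (4 - i) / s 4) φ) := by
    refine K.congr (fun i _ => inv_inv _) (fun i hi => ?_) (fun i _ _ => rfl)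
    simp only [Nat.sub_self, h.s0, show 4 - (4 - i) = i by omega]
    field_simp
  refine D5L_congr H (fun i _ => rfl) (fun i _ => rfl) fun n h1 h2 => ?_
  have e1 : revF 4 t s f n =
      revF 4 t s (revF 4 (fun i => (t i)⁻¹) (fun i => s (4 - i) / s 4) φ) n := by
    have := h.f_unique K2 n h1 h2
    unfold revF at this ⊢
    rw [← this]
  rw [e1]
  have e2 := revF_revF (m := 4) (t := fun i => (t i)⁻¹) (s := fun i => s (4 - i) / s 4) (f := φ)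
    (by simp [h.t0]) (by simp [m4]) (fun i hi => inv_ne_zero (h.t_ne i hi))
    (by simp [h.s0, m4]) (fun i j hij hj => inv2 (h.t_inj i j hij hj)) h1 h2
  rw [← e2]
  refine revF_congr (fun i _ => ?_) (fun i hi => ?_) h2
  · exact inv_inv _
  · simp only [Nat.sub_self, h.s0, show 4 - (4 - i) = i by omega]
    field_simp

/-- the reversal of D5 and D5S, both directions -/
theorem D5S_iff {t s f : ℕ → F} (t0 : t 0 = 1) (s0 : s 0 = 1) (ht : ∀ i, i ≤ 4 → t i ≠ 0)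
    (hs : s 4 ≠ 0) (hd : ∀ i j, i < j → j ≤ 4 → t i ≠ t j) :
    D5S t s f ↔ D5L (fun i => (t i)⁻¹) (fun i => s (4 - i) / s 4) (revF 4 t s f) := by
  refine ⟨D5S.rev, fun h => ?_⟩
  refine (D5S_of_D5L h).congr (fun i _ => inv_inv _) (fun i hi => ?_) (fun n h1 h2 => ?_)
  · simp only [Nat.sub_self, s0, show 4 - (4 - i) = i by omega]
    field_simp
  · exact revF_revF t0 s0 ht hs hd h1 h2

end Pool.Agent.Helper16.IP
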