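import Pool.Agent.Helper16.IP.P5
import Pool.Agent.Helper43.IPL.Flat2

/-!
TH-P (MP_d2f54f_al), diagonal branch, O-state: `kap_1^(4) = 0` implies `kap_2^(4) = 0`.
-/

namespace Pool.Agent.Helper16.IP

open Pool.Agent.Helper54.IP

variable {F : Type*} [Field F] {m : ℕ}

theorem exc4_alg {a b c d x y G13 H13 G14 H14 : F}
    (ha : a ≠ 0) (hb : b ≠ 0) (hc : c ≠ 0) (ha1 : a - 1 ≠ 0) (hb1 : b - 1 ≠ 0)
    (hab : a - b ≠ 0) (habc : a * b - c ≠ 0) (hapb : a + b ≠ 0)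
    (hx0 : x ≠ 0) (hcd : c ≠ d)
    (hL : LL a b c x y = 0) (hT : TT a b c x y = 0)
    (g13 : G13 = 1 - x + x * c) (h13 : c * H13 = (1 - y) * c + y)
    (g14 : G14 = 1 - x + x * d) (h14 : d * H14 = (1 - y) * d + y)
    (hk3 : a * G13 - a ^ 3 * H13 ≠ 0) (hk4 : a ^ 3 * H14 = G14)
    (e1 : (b - 1) * G14 = (b - a) * (a ^ 3 * (1 - y)))
    (e2 : a * ((b - 1) * G14) = (b - a) * (1 - x)) : False := by
  obtain ⟨hx, hy⟩ := chart_alg hL hT
  have hw := w26_ne ha1 hb1 hab habc hapb hL hT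
  have i1 : a * (b - 1) * x * d = -(b * (a - 1) * (1 - x)) := by
    rw [g14] at e2
    linear_combination e2
  have i2 : (a - 1) * (1 - y) * d = -((b - 1) * y) := by
    have h : a ^ 3 * ((a - 1) * (1 - y) * d + (b - 1) * y) = 0 := by
      linear_combination d * e1 - a ^ 3 * (b - 1) * h14 + d * (b - 1) * hk4
    have := (mul_eq_zero.1 h).resolve_left (pow_ne_zero 3 ha)
    linear_combination this
  have e3 : b * (a - 1) ^ 2 * ((1 - x) * (1 - y)) - a * (b - 1) ^ 2 * (x * y) = 0 := by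
    linear_combination ((a - 1) * (1 - y)) * i1 - a * (b - 1) * x * i2
  have k13e : w26 a b c * (c * (a * G13 - a ^ 3 * H13)) =
      a * (a - 1) * (b - c) * (a * b - c) * k3 a b c := by
    have h3 : w26 a b c * (a * c - a ^ 3 * c) + a * c * (c - 1) * ((a - 1) * x10 a b c) +
        a ^ 2 * (c - 1) * ((a - 1) * y10 a b c) =
        a * (a - 1) * (b - c) * (a * b - c) * k3 a b c := by
      rw [k3, w26, x10, y10]; ring
    rw [g13]
    linear_combination h3 + a * c * (c - 1) * hx + a ^ 2 * (c - 1) * hy - w26 a b c * a ^ 3 * h13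
  have hk3' : k3 a b c ≠ 0 := by
    intro h
    rw [h, mul_zero] at k13e
    exact (mul_ne_zero hw (mul_ne_zero hc hk3)) k13e
  have hac : a * c - b ^ 2 = 0 := by
    have h3 : b * (a - 1) ^ 2 * (a * (w26 a b c - (a - 1) * x10 a b c) *
        (a * w26 a b c - (a - 1) * y10 a b c)) -
        a * (b - 1) ^ 2 * (a * ((a - 1) * x10 a b c) * ((a - 1) * y10 a b c)) =
        a * (a - 1) ^ 2 * (b - 1) ^ 2 * (a - b) * (a * b - c) * (a + b) * (a * c - b ^ 2) *
        k3 a b c := by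
      rw [k3, w26, x10, y10]; ring
    have h4 : a * (a - 1) ^ 2 * (b - 1) ^ 2 * (a - b) * (a * b - c) * (a + b) * (a * c - b ^ 2) *
        k3 a b c = 0 := by
      rw [← h3, ← hx, ← hy]
      linear_combination a ^ 2 * w26 a b c ^ 2 * e3
    have h5 := (mul_eq_zero.1 h4).resolve_right hk3'
    exact (mul_eq_zero.1 h5).resolve_left (mul_ne_zero (mul_ne_zero (mul_ne_zero (mul_ne_zero
      (mul_ne_zero ha (pow_ne_zero 2 ha1)) (pow_ne_zero 2 hb1)) hab) habc) hapb)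
  have h6 : b * (b - 1) * x + (a - 1) * (1 - x) = 0 := by
    have h3 : b * (b - 1) * ((a - 1) * x10 a b c) + (a - 1) * (w26 a b c - (a - 1) * x10 a b c) =
        (a - 1) * (b - 1) * (a + b) * (a - b - c + 1) * (a * c - b ^ 2) := by
      rw [w26, x10]; ring
    rw [hac, mul_zero, ← hx] at h3
    have h4 : w26 a b c * (b * (b - 1) * x + (a - 1) * (1 - x)) = 0 := by
      linear_combination h3
    exact (mul_eq_zero.1 h4).resolve_left hw
  apply hcd
  have h7 : (b - 1) * x * (a * (c - d)) = 0 := by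
    linear_combination (-1 : F) * i1 + (b - 1) * x * hac + b * h6
  exact sub_eq_zero.1 ((mul_eq_zero.1 ((mul_eq_zero.1 h7).resolve_left
    (mul_ne_zero hb1 hx0))).resolve_left ha)

/-- in the O-state (`kap_1^(3) ≠ 0`), `kap_1^(4) = 0` implies `kap_2^(4) = 0`. -/
theorem closed4 (g : GForm F m) (hm : 4 ≤ m) (h1 : g.t 1 = g.s 1)
    (h2 : g.t 2 = g.s 2) (hb : g.t 2 ≠ -g.t 1) (h3 : g.s 3 ≠ g.t 1 * g.t 2)
    (hL : LL (g.t 1) (g.t 2) (g.s 3) (1 - g.lam' 0) (g.mu' 0) = 0)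
    (hT : TT (g.t 1) (g.t 2) (g.s 3) (1 - g.lam' 0) (g.mu' 0) = 0)
    (hk3 : g.kap 1 3 ≠ 0) (hk4 : g.kap 1 4 = 0) : g.kap 2 4 = 0 := by
  have ha := g.t_ne 1 (by omega)
  have hb0 := g.t_ne 2 (by omega)
  have hk4' : g.t 1 ^ 3 * g.H 1 4 = g.G 1 4 := by
    rw [GForm.kap] at hk4
    apply mul_left_cancel₀ ha
    linear_combination -hk4
  rcases Helper43.IPL.deg_flat g (by omega) 3 (by omega) hk4' with h | ⟨e1, e2⟩
  · rw [GForm.kap]
    linear_combination (-g.t 2) * h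
  exfalso
  have hab : g.t 1 - g.t 2 ≠ 0 := sub_ne_zero.2 (g.t_inj 1 2 (by omega) (by omega))
  have habc : g.t 1 * g.t 2 - g.s 3 ≠ 0 := sub_ne_zero.2 (fun h => h3 h.symm)
  have hapb : g.t 1 + g.t 2 ≠ 0 := fun h => hb (by linear_combination h)
  have r3 := g.row1G (k := 3) (by omega) (by omega)
  have q3 := g.row1H (k := 3) (by omega) (by omega)
  have r4 := g.row1G (k := 4) (by omega) (by omega)
  have q4 := g.row1H (k := 4) (by omega) (by omega)
  rw [GForm.kap] at hk3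
  exact exc4_alg (a := g.t 1) (b := g.t 2) (c := g.s 3)
    (d := g.s 4) (x := 1 - g.lam' 0) (y := g.mu' 0)
    (G13 := g.G 1 3) (H13 := g.H 1 3) (G14 := g.G 1 4) (H14 := g.H 1 4) ha hb0 (g.s_ne 3 (by omega))
    (t1_sub g (by omega)) (t2_sub g (by omega)) hab habc hapb
    (sub_ne_zero.2 (g.lam'_ne 0 (by omega)).symm) (g.s_inj 3 4 (by omega) (by omega)) hL hT
    (by rw [r3]; ring) q3 (by rw [r4]; ring) q4 hk3 hk4' e1 (by rw [e2]; ring)

end Pool.Agent.Helper16.IP
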