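import Pool.Agent.Helper16.IP.DBranchOf
import Pool.Agent.Helper16.IP.Exc4
import Pool.Agent.Helper27.IP.P6

/-!
TH-P (MP_d2f54f_al): the diagonal branch modulo the piece P3 (`kap_1^(3) = 0` in the O-state).
-/

namespace Pool.Agent.Helper16.IP

open Pool.Agent.Helper54.IP

variable {F : Type*} [Field F] {m : ℕ}

theorem d_branch_of3
    (P3 : ∀ g : GForm F m, g.G 1 1 ≠ g.H 1 1 → g.t 1 = g.s 1 → g.t 2 = g.s 2 → g.kap 1 2 ≠ 0 →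
      g.t 2 ≠ -g.t 1 → g.s 3 ≠ g.t 1 * g.t 2 → g.t 3 = g.s 3 →
      LL (g.t 1) (g.t 2) (g.s 3) (1 - g.lam' 0) (g.mu' 0) = 0 →
      TT (g.t 1) (g.t 2) (g.s 3) (1 - g.lam' 0) (g.mu' 0) = 0 → g.kap 1 3 = 0 → False)
    (g : GForm F m) (hm : 6 ≤ m) (hD : g.G 1 1 ≠ g.H 1 1) (h1 : g.t 1 = g.s 1)
    (h2 : g.t 2 = g.s 2) (hk : g.kap 1 2 ≠ 0) :
    g.t 2 = g.t 1 ^ 2 ∧ (g.s 3 = g.t 1 ^ 3 ∨ g.t 3 = g.t 1 ^ 3) :=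
  d_branch_of P3 (fun g hD h1 h2 hk hb h3 _ hL hT hk3 hk4 =>
    Helper27.IP.p6_closed g (by omega) hD h1 h2 hk hb h3 hL hT hk3 hk4
      (closed4 g (by omega) h1 h2 hb h3 hL hT hk3 hk4)) g hm hD h1 h2 hk

end Pool.Agent.Helper16.IP
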