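import Pool.Agent.Helper16.IP.P5b
import Pool.Agent.Helper27.IP.DP2
import Pool.Agent.Helper43.IPL.BNeg
import Pool.Agent.Helper43.IPL.Flat2
import Pool.Agent.Helper76.IP.P4

/-!
TH-P (MP_d2f54f_al): the diagonal branch from its pieces; the two degenerate pieces are hypotheses.
-/

namespace Pool.Agent.Helper16.IP

open Pool.Agent.Helper54.IP

variable {F : Type*} [Field F] {m : ℕ}

/-- in the O-state `s_3 = t_3` -/
theorem ostate_unique (g : GForm F m) (hm : 3 ≤ m) (hD : g.G 1 1 ≠ g.H 1 1) (h1 : g.t 1 = g.s 1)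
    (h2 : g.t 2 = g.s 2) (hL : LL (g.t 1) (g.t 2) (g.s 3) (1 - g.lam' 0) (g.mu' 0) = 0)
    (hL' : LL (g.s 1) (g.s 2) (g.t 3) (1 - g.lam 0) (g.mu 0) = 0) : g.t 3 = g.s 3 := by
  rw [← h1, ← h2, lam0 g (by omega) h1, mu0 g (by omega) h1, LL] at hL'
  rw [LL] at hL
  have hal := al_eq g (by omega) h1
  have hS : (g.t 1 - 1) * (g.mu' 0 - 1) + (1 - g.lam' 0) * (g.t 2 - 1) ≠ 0 := by
    rw [← hal]
    exact mul_ne_zero (al_ne g (by omega)) (mul_ne_zero (t1_sub g (by omega))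
      (axy_ne g (by omega) hD h1))
  have e : g.t 1 * ((g.t 1 - 1) * (g.mu' 0 - 1) + (1 - g.lam' 0) * (g.t 2 - 1)) *
      (g.t 3 - g.s 3) = 0 := by
    linear_combination hL' - hL
  exact sub_eq_zero.1 ((mul_eq_zero.1 e).resolve_left (mul_ne_zero (g.t_ne 1 (by omega)) hS))

/-- type 1 at step 2 in multiplicative form -/
theorem de_al (g : GForm F m) (hm : 2 ≤ m) (hD : g.G 1 1 ≠ g.H 1 1) (h1 : g.t 1 = g.s 1)
    {c : F} (hL : LL (g.t 1) (g.t 2) c (1 - g.lam' 0) (g.mu' 0) = 0) :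
    g.t 2 * g.mu' 1 = g.t 1 ^ 2 * c * (1 - g.lam' 1) := by
  have hal := al_eq g (by omega) h1
  have hde := de_eq g (by omega) h1
  have hne := mul_ne_zero (t1_sub g (by omega)) (axy_ne g (by omega) hD h1)
  rw [LL] at hL
  apply mul_right_cancel₀ hne
  linear_combination hde - g.t 1 ^ 2 * c * hal - g.t 1 * hL

theorem d_branch_of
    (P3 : ∀ g : GForm F m, g.G 1 1 ≠ g.H 1 1 → g.t 1 = g.s 1 → g.t 2 = g.s 2 → g.kap 1 2 ≠ 0 →
      g.t 2 ≠ -g.t 1 → g.s 3 ≠ g.t 1 * g.t 2 → g.t 3 = g.s 3 →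
      LL (g.t 1) (g.t 2) (g.s 3) (1 - g.lam' 0) (g.mu' 0) = 0 →
      TT (g.t 1) (g.t 2) (g.s 3) (1 - g.lam' 0) (g.mu' 0) = 0 → g.kap 1 3 = 0 → False)
    (P6 : ∀ g : GForm F m, g.G 1 1 ≠ g.H 1 1 → g.t 1 = g.s 1 → g.t 2 = g.s 2 → g.kap 1 2 ≠ 0 →
      g.t 2 ≠ -g.t 1 → g.s 3 ≠ g.t 1 * g.t 2 → g.t 3 = g.s 3 →
      LL (g.t 1) (g.t 2) (g.s 3) (1 - g.lam' 0) (g.mu' 0) = 0 →
      TT (g.t 1) (g.t 2) (g.s 3) (1 - g.lam' 0) (g.mu' 0) = 0 → g.kap 1 3 ≠ 0 →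
      g.kap 1 4 = 0 → False)
    (g : GForm F m) (hm : 6 ≤ m) (hD : g.G 1 1 ≠ g.H 1 1) (h1 : g.t 1 = g.s 1)
    (h2 : g.t 2 = g.s 2) (hk : g.kap 1 2 ≠ 0) :
    g.t 2 = g.t 1 ^ 2 ∧ (g.s 3 = g.t 1 ^ 3 ∨ g.t 3 = g.t 1 ^ 3) := by
  by_cases hb : g.t 2 = -g.t 1
  · exact (Helper43.IPL.b_neg_dead g hm hD h1 h2 hb hk).elim
  have hks : g.swap.kap 1 2 ≠ 0 := by
    rw [GForm.kap]
    simp only [GForm.swap_t, GForm.swap_G, GForm.swap_H]
    rw [← h1, G_one g (k := 2) (by omega) (by omega) h1 h2,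
      H_one g (k := 2) (by omega) (by omega) h1 h2]
    exact hk
  have close : ∀ g : GForm F m, g.G 1 1 ≠ g.H 1 1 → g.t 1 = g.s 1 → g.t 2 = g.s 2 →
      g.s 3 = g.t 1 * g.t 2 → (g.t 2 = g.t 1 ^ 2 ∨ g.kap 1 3 = 0) → g.t 2 = g.t 1 ^ 2 := by
    intro g hD h1 h2 h3 h
    rcases h with h | h
    · exact h
    · by_contra hne
      exact Helper27.IP.p2_dead g (by omega) hD h1 h2 h3 hne h
  rcases lev3 g (by omega) h1 h2 hk with ⟨h3, h⟩ | ⟨h3, hL, hT⟩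
  · have h4 := close g hD h1 h2 h3 h
    refine ⟨h4, Or.inl ?_⟩
    rw [h3, h4]; ring
  rcases lev3 g.swap (by omega) h1.symm h2.symm hks with ⟨h3', h⟩ | ⟨h3', hL', hT'⟩
  · have h4 := close g.swap hD h1.symm h2.symm h3' h
    simp only [GForm.swap_t, GForm.swap_s] at h3' h4
    rw [← h1, ← h2] at h3' h4
    refine ⟨h4, Or.inr ?_⟩
    rw [h3', h4]; ring
  exfalso
  simp only [GForm.swap_t, GForm.swap_s, GForm.swap_lam', GForm.swap_mu'] at hL'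
  have h33 := ostate_unique g (by omega) hD h1 h2 hL hL'
  by_cases hk3 : g.kap 1 3 = 0
  · exact P3 g hD h1 h2 hk hb h3 h33 hL hT hk3
  by_cases hk4 : g.kap 1 4 = 0
  · exact P6 g hD h1 h2 hk hb h3 h33 hL hT hk3 hk4
  have ht := g.t_ne 1 (by omega)
  rcases Helper43.IPL.local_flat2 g (by omega) 3 (by omega) with h | h | h | h | ⟨hA, h⟩
  · have e := g.D_succ (j := 1) (k := 2) (by omega) (by omega)
    rw [GForm.D] at e
    simp only [Nat.reduceAdd] at e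
    rw [h] at e
    exact (mul_ne_zero (sub_ne_zero.2 (g.lm_ne 2 (by omega)).symm) hk) e.symm
  · apply hk3
    rw [GForm.kap]
    linear_combination -h
  · apply hk4
    rw [GForm.kap]
    simp only [Nat.reduceAdd] at h
    linear_combination (-g.t 1) * h
  · exact Helper76.IP.p4_dead g (by omega) hD h1 h2 hk hb h3 hL hT hk3 h
  · simp only [Nat.reduceAdd] at hA h
    have e := de_al g (by omega) hD h1 hL
    have h4 : g.s 4 * g.t 1 = g.t 2 ^ 2 := by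
      have ht2 := g.t_ne 2 (by omega)
      have hs3 := g.s_ne 3 (by omega)
      have hal := al_ne g (by omega)
      have e2 : (1 - g.lam' 1) * g.s 3 * g.t 1 ^ 2 * (g.s 4 * g.t 1 - g.t 2 ^ 2) = 0 := by
        linear_combination h + g.t 2 ^ 2 * e
      exact sub_eq_zero.1 ((mul_eq_zero.1 e2).resolve_left
        (mul_ne_zero (mul_ne_zero hal hs3) (pow_ne_zero 2 ht)))
    exact hk4 (p5_closed g (by omega) hD h1 h2 hk hb h3 h33 hL hT hk3 h4 (by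
      linear_combination hA)).2

end Pool.Agent.Helper16.IP
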