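import Pool.Agent.Helper85.IP.K2LeafOf

/-!
TH-P, K2-1, letter 0, the case `S = -v`: characteristic 257 and an explicit point, which the row
relation `F54` excludes.
-/

namespace Pool.Agent.Helper16.IP

open Pool.Agent.Helper76.IP Pool.Agent.Helper27.IP Pool.Agent.Helper85.IP

variable {F : Type*} [Field F]

private theorem cancel {a b : F} (ha : a ≠ 0) (h : a * b = 0) : b = 0 :=
  (mul_eq_zero.1 h).resolve_left ha

/-- the case `S = -v`: `257 = 0` and the explicit point -/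
theorem k21A_alg {t v u : F} (ht : t ≠ 0) (hv : v ≠ 0) (hv1 : v + 1 ≠ 0) (h2 : (2 : F) ≠ 0)
    (h3 : (3 : F) ≠ 0)
    (R : (-v)*(t+v+1)-(t*v+t+v) = 0)
    (C2 : u^2*((-v)^2-v*(-v)+v^2*(-v)-t*v^2)-t*(-v)^2*u+t*(-v)*(v+t*v-(-v)) = 0)
    (C4 : u^2*v*((-v)+t*(-v)-t*v)-t*v^2*u+t*(t*v^2-t*v*(-v)+t*(-v)-(-v)^2) = 0)
    (F1 : u^2*(v*(-v)-t*(-v)+t*v)+u*v*((-v)^2-(-v)-t-t^2)+t*(-v)*((-v)-v+t) = 0) :
    (257 : F) = 0 ∧ v ^ 2 = 50 * v - 1 ∧ t = 22 - 118 * v ∧ u = 128 - 19 * v := by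
  have R0 : t * (2 * v + 1) + v * (v + 2) = 0 := by linear_combination -R
  have hQ : 2 * v + 1 ≠ 0 := by
    intro e
    have e1 : v * (v + 2) = 0 := by linear_combination R0 - t * e
    have e2 := cancel hv e1
    exact h3 (by linear_combination 2 * e2 - e)
  have hP : v + 2 ≠ 0 := by
    intro e
    have e1 : t * (2 * v + 1) = 0 := by linear_combination R0 - v * e
    exact hQ (cancel ht e1)
  have E1 : (1 + v - v ^ 2) * (2 * v + 1) * u ^ 2 + v * (v + 2) * (1 - v - v ^ 2) = 0 := by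
    refine cancel (mul_ne_zero h3 (pow_ne_zero 2 hv)) ?_
    linear_combination (2 * v + 1) ^ 2 * (C2 - C4) + (-3*v ^ 4 +6*v ^ 3*t -2*v ^ 3*u ^ 2 -3*v ^ 3 +v ^ 2*t -v ^ 2*u ^ 2 +3*v ^ 2 -v*t) * R0
  have C4p : (2 * v ^ 2 + 2 * v - 1) * (2 * v + 1) * u ^ 2 + v * (2 * v + 1) * (v + 2) * u +
      v * (v + 2) * (2 * v ^ 2 + 5 * v - 1) = 0 := by
    refine cancel (pow_ne_zero 2 hv) ?_
    linear_combination (2 * v + 1) ^ 2 * C4 + (2*v ^ 4 -4*v ^ 3*t +4*v ^ 3*u ^ 2 +2*v ^ 3*u +5*v ^ 3 +2*v ^ 2*u ^ 2 +v ^ 2*u -v ^ 2 +v*t) * R0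
  have L1 : (2 * v + 1) * u * (1 + v - v ^ 2) + v * (v ^ 2 + 7 * v + 1) = 0 := by
    refine cancel (mul_ne_zero hv hP) ?_
    linear_combination (1 + v - v ^ 2) * C4p - (2 * v ^ 2 + 2 * v - 1) * E1
  have p6 : v ^ 6 + 3 * v ^ 5 + 5 * v ^ 4 + 18 * v ^ 3 + 5 * v ^ 2 + 3 * v + 1 = 0 := by
    refine cancel (mul_ne_zero h2 hv) ?_
    linear_combination (2 * v + 1) * (1 + v - v ^ 2) * E1 + (2*v ^ 3*u +v ^ 3 -v ^ 2*u +7*v ^ 2 -3*v*u +v -u) * L1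
  have F1p : -(5 + 4 * v) * (2 * v + 1) * u ^ 2 + 3 * (v + 1) * (v ^ 2 + v + 1) * u -
      v * (v + 2) * (4 + 5 * v) = 0 := by
    refine cancel (pow_ne_zero 2 hv) ?_
    linear_combination (2 * v + 1) ^ 2 * F1 + (-v ^ 3*u -5*v ^ 3 +2*v ^ 2*t*u +2*v ^ 2*t -4*v ^ 2*u ^ 2 -4*v ^ 2 +v*t*u +v*t -2*v*u ^ 2 +v*u) * R0
  have p4 : v ^ 4 + 41 * v ^ 3 + 78 * v ^ 2 + 41 * v + 1 = 0 := by
    refine cancel (mul_ne_zero hv hv1) ?_
    linear_combination -((2 * v + 1) * (1 + v - v ^ 2) * F1p + (5 + 4 * v) * (2 * v + 1) * E1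
      - 3 * (v + 1) * (v ^ 2 + v + 1) * L1)
  have p2 : 371 * v ^ 2 + 725 * v + 371 = 0 := by
    refine cancel (mul_ne_zero (pow_ne_zero 2 h2) (pow_ne_zero 2 hv)) ?_
    linear_combination p6 - (v ^ 2 - 38 * v + 1) * p4
  have hp : (257 : F) = 0 := by
    refine cancel (mul_ne_zero (mul_ne_zero h2 (pow_ne_zero 4 h3)) (pow_ne_zero 2 hv)) ?_
    linear_combination (371 * v ^ 2 + 14486 * v + 371) * p2 - 371 ^ 2 * p4
  have M : v ^ 2 - 50 * v + 1 = 0 := by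
    linear_combination 124 * p2 - (179*v ^ 2 +350*v +179) * hp
  refine ⟨hp, by linear_combination M, ?_, ?_⟩
  · refine mul_right_cancel₀ hQ ?_
    linear_combination R0 + 235 * M + (46 * v - 1) * hp
  · linear_combination (-118*v +122) * L1 - (-21*v ^ 2*u -118*v ^ 2 -127*v*u +78*v +121*u +128) * M - (v ^ 4*u -5*v ^ 3*u -26*v ^ 3 -26*v ^ 2*u +18*v ^ 2 +25*v*u +25*v) * hp

/-- the case `S = -v` of letter 0: the explicit point -/
theorem _root_.Pool.Agent.Helper85.IP.K21.pointA {t v u S T r : F} (K : K21 t v u S T r)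
    (h2 : (2 : F) ≠ 0) (h3 : (3 : F) ≠ 0) (hI : pI S v u = 0) (hS : S = -v) :
    (257 : F) = 0 ∧ v ^ 2 = 50 * v - 1 ∧ t = 22 - 118 * v ∧ u = 128 - 19 * v := by
  obtain ⟨hR, -, C2, -, C4, F1, -⟩ := k21_small K.t0 K.v0 K.u0 K.S0 K.Sv K.td K.uS K.u1 K.R K.Ea
    K.B2 hI
  rw [hS] at hR C2 C4 F1
  exact k21A_alg K.t0 K.v0 K.v1' h2 h3 hR C2 C4 F1

/-- the same point in the letter `t` -/
theorem _root_.Pool.Agent.Helper85.IP.K21.pointA' {t v u S T r : F} (K : K21 t v u S T r)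
    (h2 : (2 : F) ≠ 0) (h3 : (3 : F) ≠ 0) (hI : pI S v u = 0) (hS : S = -v) :
    (257 : F) = 0 ∧ t ^ 2 = 55 * t - 1 ∧ v = -100 + 98 * t ∧ u = -28 - 63 * t := by
  obtain ⟨hp, hM, ht, hu⟩ := K.pointA h2 h3 hI hS
  have M : v ^ 2 - 50 * v + 1 = 0 := by linear_combination hM
  subst ht
  refine ⟨hp, ?_, ?_, ?_⟩
  · linear_combination (46) * M + (54*v ^ 2 +14*v -3) * hp
  · linear_combination (45*v -8) * hp
  · rw [hu]
    linear_combination (-29*v +6) * hp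

/-- the case `S = -v` of letter 0 is excluded by `F54` -/
theorem k21A : K21A F := by
  intro t v u S T r K h2 h3 _ hI _ _ _ _ hF hS
  obtain ⟨hp, hM, ht, hu⟩ := K.pointA h2 h3 hI hS
  have M : v ^ 2 - 50 * v + 1 = 0 := by linear_combination hM
  have t0 := K.t0
  have r0 := K.r0
  have v0 := K.v0
  have hT : T = -1 := by
    have := K.hST
    apply mul_left_cancel₀ v0
    rw [← this, hS]
    ring
  have htr : t * r = -1 := by rw [← K.hr, hT]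
  have t2 : t ^ 2 = 55 * t - 1 := (K.pointA' h2 h3 hI hS).2.1
  have hr : r = -33 - 118 * v := by
    have e : r = t - 55 := by
      apply mul_left_cancel₀ t0
      linear_combination htr - t2
    rw [e, ht]
    ring
  have i4 : (r ^ 4)⁻¹ = t ^ 4 := by
    rw [inv_eq_iff_eq_inv, eq_comm]
    apply inv_eq_of_mul_eq_one_right
    linear_combination ((t * r) ^ 3 - (t * r) ^ 2 + t * r - 1) * htr
  have j4 : (t ^ 4)⁻¹ = r ^ 4 := by rw [← i4, inv_inv]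
  have ir : r⁻¹ = -t := by
    apply inv_eq_of_mul_eq_one_right
    linear_combination -htr
  have hF' : (t - 1) * S * (t ^ 4 * v * (v + 1 - S)
        - (S ^ 2 * v + S * (1 - v - v ^ 2) + v ^ 2) * t ^ 4)
      + (t ^ 5 * (v ^ 2 - (v + 1 - S)) - r ^ 2 * (S * (v ^ 2 + v - 1) - v ^ 2)
        + (t - 1) * S * (-r ^ 2 - v * t ^ 4)) * (v + 1 - S) * u
      + (t - 1) * (r ^ 3 * (S ^ 2 + S * (v ^ 2 - v - 1) + v) - r ^ 2 * v * (v + 1 - S)) * u ^ 2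
      = 0 := by
    rw [k2F] at hF
    simp only [div_eq_mul_inv] at hF
    rw [i4, j4, ir] at hF
    linear_combination hF + ((v + 1 - S) * u * ((S * (v ^ 2 + v - 1) - v ^ 2) * (r ^ 2 * (t * r - 1))
      + (t - 1) * S * (r ^ 2 * (t * r - 1))) + (t - 1) * u ^ 2 *
      ((S ^ 2 + S * (v ^ 2 - v - 1) + v) * r ^ 3 + v * (v + 1 - S) * (r ^ 2 * (t * r - 1)))) * htr
  have e4 : t ^ 4 = (110*v +9) := by
    rw [ht]
    linear_combination (60*v ^ 2 +15*v +120) * M + (754388*v ^ 4 -562583*v ^ 3 +157338*v ^ 2 -19533*v +911) * hp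
  have e5 : t ^ 5 = (-2*v +71) := by
    rw [ht]
    linear_combination (116*v ^ 3 +64*v ^ 2 +48*v -60) * M + (-89017812*v ^ 5 +82982728*v ^ 4 -30942692*v ^ 3 +5768988*v ^ 2 -537798*v +20053) * hp
  have e2 : r ^ 2 = (65*v +15) := by
    rw [hr]
    linear_combination (46) * M + (54*v ^ 2 +39*v +4) * hp
  have e3 : r ^ 3 = (-116*v -21) := by
    rw [hr]
    linear_combination (-31*v +64) * M + (-6393*v ^ 3 -5370*v ^ 2 -1487*v -140) * hp
  rw [e4, e5, e2, e3, ht, hu, hS] at hF'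
  apply one_ne_zero (α := F)
  linear_combination (109*v +114) * hF' - (-77*v ^ 6 -34*v ^ 5 -32*v ^ 4 +54*v ^ 3 -26*v ^ 2 -33*v -66) * M - (-2095755*v ^ 8 +32776548*v ^ 7 -142203079*v ^ 6 +33032396*v ^ 5 +484472101*v ^ 4 +261407821*v ^ 3 -13160533*v ^ 2 -8701577*v -4031) * hp

end Pool.Agent.Helper16.IP
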