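import Pool.Agent.Helper54.IP.GSwap

/-!
TH-P (MP_d2f54f_al), diagonal branch, level 3.
`a = t_1 = s_1`, `b = t_2 = s_2`, `c = s_3`, `x = 1 - lam'_0`, `y = mu'_0`.
-/

namespace Pool.Agent.Helper16.IP

open Pool.Agent.Helper54.IP

variable {F : Type*} [Field F]

/-- the cell `(2,3)` -/
theorem lev3_alg {a b c x y al de lam mu G12 H12 G13 H13 G22 H22 G23 H23 : F}
    (ha : a ≠ 0) (hb : b ≠ 0)
    (hx : x ≠ 0) (hy : y ≠ 0)
    (hLam : b * (b - 1) * x + a * (b - 1) * y - b * (a - 1) ≠ 0)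
    (hal : al * ((a - 1) * (a * x + y)) = (a - 1) * (y - 1) + x * (b - 1))
    (hde : b * de * ((a - 1) * (a * x + y)) = -(a * (b * (a - 1) * (1 - x) - a * y * (b - 1))))
    (g12 : G12 = 1 - x + x * b) (h12 : b * H12 = (1 - y) * b + y)
    (g13 : G13 = 1 - x + x * c) (h13 : c * H13 = (1 - y) * c + y)
    (g22 : G22 = b * (al * G12 + (1 - al) * H12)) (h22 : b * H22 = (1 - de) * G12 + de * H12)
    (g23 : G23 = c * (al * G13 + (1 - al) * H13)) (h23 : c * H23 = (1 - de) * G13 + de * H13)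
    (U1 : G13 = a * G12 - lam * (a * G12 - a ^ 2 * H12))
    (U2 : a ^ 3 * H13 = a * G12 - mu * (a * G12 - a ^ 2 * H12))
    (U3 : G23 = b * G22 - lam * (b * G22 - b ^ 2 * H22))
    (U4 : b ^ 3 * H23 = b * G22 - mu * (b * G22 - b ^ 2 * H22)) :
    -(b - c) * ((a - 1) * (b * (1 - x) - a * c * (1 - y)) + a * (b - 1) * (c * x - y)) +
      (a - b) * ((b ^ 2 - c) * ((1 - x) - a ^ 2 * (1 - y)) + (b - 1) * (b * c * x - a ^ 2 * y)) = 0
    ∧ -(a * b * (b - c)) * ((a - 1) * (b * (1 - x) - a * c * (1 - y)) + a * (b - 1) * (c * x - y)) +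
      c * (a - b) * ((b ^ 2 - c) * ((1 - x) - a ^ 2 * (1 - y)) + (b - 1) * (b * c * x - a ^ 2 * y))
      = 0 := by
  have P : (a * G12 - G13) * (b * G22 - b ^ 2 * H22) - (b * G22 - G23) * (a * G12 - a ^ 2 * H12)
      = 0 := by
    rw [U1, U3]; ring
  have Q : (a * G12 - a ^ 3 * H13) * (b * G22 - b ^ 2 * H22) -
      (b * G22 - b ^ 3 * H23) * (a * G12 - a ^ 2 * H12) = 0 := by
    rw [U2, U4]; ring
  obtain ⟨D, hD⟩ : ∃ D, D = (a - 1) * (a * x + y) := ⟨_, rfl⟩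
  obtain ⟨S, hS⟩ : ∃ S, S = (a - 1) * (y - 1) + x * (b - 1) := ⟨_, rfl⟩
  obtain ⟨S', hS'⟩ : ∃ S', S' = -(a * (b * (a - 1) * (1 - x) - a * y * (b - 1))) := ⟨_, rfl⟩
  rw [← hD, ← hS] at hal
  rw [← hD, ← hS'] at hde
  have n22 : D * G22 = S * (b * G12) + (D - S) * (b * H12) := by
    linear_combination D * g22 + b * (G12 - H12) * hal
  have m22 : b ^ 3 * (D * H22) = (b * D - S') * (b * G12) + S' * (b * H12) := by
    linear_combination b ^ 2 * D * h22 - b * (G12 - H12) * hde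
  have n23 : D * G23 = S * (c * G13) + (D - S) * (c * H13) := by
    linear_combination D * g23 + c * (G13 - H13) * hal
  have m23 : b * c ^ 2 * (D * H23) = (b * D - S') * (c * G13) + S' * (c * H13) := by
    linear_combination b * c * D * h23 - c * (G13 - H13) * hde
  have hne : x * (b * (b - 1) * x + a * (b - 1) * y - b * (a - 1)) ≠ 0 := mul_ne_zero hx hLam
  have hne' : a * (y * (b * (b - 1) * x + a * (b - 1) * y - b * (a - 1))) ≠ 0 :=
    mul_ne_zero ha (mul_ne_zero hy hLam)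
  refine ⟨mul_left_cancel₀ hne ?_, mul_left_cancel₀ hne' ?_⟩
  · rw [mul_zero]
    have : x * (b * (b - 1) * x + a * (b - 1) * y - b * (a - 1)) * (-(b - c) *
        ((a - 1) * (b * (1 - x) - a * c * (1 - y)) + a * (b - 1) * (c * x - y)) +
      (a - b) * ((b ^ 2 - c) * ((1 - x) - a ^ 2 * (1 - y)) + (b - 1) * (b * c * x - a ^ 2 * y))) =
      (a * G12 - G13) * (b ^ 2 * (D * G22) - b ^ 3 * (D * H22)) -
        (b * (D * G22) - D * G23) * (a * (b * G12) - a ^ 2 * (b * H12)) := by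
      rw [n22, m22, n23, h12, h13, g12, g13, hD, hS, hS']
      ring
    rw [this]
    linear_combination b * D * P
  · rw [mul_zero]
    have : a * (y * (b * (b - 1) * x + a * (b - 1) * y - b * (a - 1))) * (-(a * b * (b - c)) *
        ((a - 1) * (b * (1 - x) - a * c * (1 - y)) + a * (b - 1) * (c * x - y)) +
      c * (a - b) * ((b ^ 2 - c) * ((1 - x) - a ^ 2 * (1 - y)) + (b - 1) * (b * c * x - a ^ 2 * y))) =
      c * (a * (c * G12) - a ^ 3 * (c * H13)) * (b ^ 2 * (D * G22) - b ^ 3 * (D * H22)) -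
        (b * c ^ 2 * (D * G22) - b ^ 2 * (b * c ^ 2 * (D * H23))) *
        (a * (b * G12) - a ^ 2 * (b * H12)) := by
      rw [n22, m22, m23, h12, h13, g12, g13, hD, hS, hS']
      ring
    rw [this]
    linear_combination b * c ^ 2 * D * Q

/-- type 1 at step 2: `(1 - lam'_1) s_2 s_3 t_1^2 = mu'_1 t_2^2` -/
def LL (a b c x y : F) : F :=
  (a - 1) * (b * (1 - x) - a * c * (1 - y)) + a * (b - 1) * (c * x - y)

/-- the second relation of the column `c = s_3` -/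
def TT (a b c x y : F) : F :=
  (b ^ 2 - c) * ((1 - x) - a ^ 2 * (1 - y)) + (b - 1) * (b * c * x - a ^ 2 * y)

variable {m : ℕ}

theorem t1_sub (g : GForm F m) (hm : 1 ≤ m) : g.t 1 - 1 ≠ 0 := by
  have := g.t_inj 0 1 (by omega) (by omega)
  rw [g.t0] at this
  exact sub_ne_zero.2 this.symm

theorem t2_sub (g : GForm F m) (hm : 2 ≤ m) : g.t 2 - 1 ≠ 0 := by
  have := g.t_inj 0 2 (by omega) (by omega)
  rw [g.t0] at this
  exact sub_ne_zero.2 this.symm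

theorem lam0 (g : GForm F m) (hm : 1 ≤ m) (h1 : g.t 1 = g.s 1) : g.lam 0 = g.lam' 0 := by
  have r1 := g.row1G (k := 1) hm hm
  have q1 := g.swap.row1G (k := 1) hm hm
  simp only [GForm.swap_s, GForm.swap_G, GForm.swap_lam'] at q1
  rw [← h1] at r1
  have e : (g.t 1 - 1) * (g.lam 0 - g.lam' 0) = 0 := by linear_combination q1 - r1
  exact sub_eq_zero.1 ((mul_eq_zero.1 e).resolve_left (t1_sub g hm))

theorem mu0 (g : GForm F m) (hm : 1 ≤ m) (h1 : g.t 1 = g.s 1) : g.mu 0 = g.mu' 0 := by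
  have r1 := g.row1H (k := 1) hm hm
  have q1 := g.swap.row1H (k := 1) hm hm
  simp only [GForm.swap_s, GForm.swap_H, GForm.swap_mu'] at q1
  rw [← h1] at r1
  have e : (g.t 1 - 1) * (g.mu 0 - g.mu' 0) = 0 := by linear_combination q1 - r1
  exact sub_eq_zero.1 ((mul_eq_zero.1 e).resolve_left (t1_sub g hm))

/-- `t_1 (G(1,1) - H(1,1)) = (t_1 - 1)(t_1 x + y)` -/
theorem D1_eq (g : GForm F m) (hm : 1 ≤ m) (h1 : g.t 1 = g.s 1) :
    g.t 1 * (g.G 1 1 - g.H 1 1) = (g.t 1 - 1) * (g.t 1 * (1 - g.lam' 0) + g.mu' 0) := by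
  have r1 := g.row1G (k := 1) hm hm
  have r2 := g.row1H (k := 1) hm hm
  rw [← h1] at r1 r2
  linear_combination g.t 1 * r1 - r2

theorem axy_ne (g : GForm F m) (hm : 1 ≤ m) (hD : g.G 1 1 ≠ g.H 1 1) (h1 : g.t 1 = g.s 1) :
    g.t 1 * (1 - g.lam' 0) + g.mu' 0 ≠ 0 := by
  intro h
  have e := D1_eq g hm h1
  rw [h, mul_zero] at e
  exact (mul_ne_zero (g.t_ne 1 hm) (sub_ne_zero.2 hD)) e

theorem al_eq (g : GForm F m) (hm : 2 ≤ m) (h1 : g.t 1 = g.s 1) :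
    (1 - g.lam' 1) * ((g.t 1 - 1) * (g.t 1 * (1 - g.lam' 0) + g.mu' 0)) =
      (g.t 1 - 1) * (g.mu' 0 - 1) + (1 - g.lam' 0) * (g.t 2 - 1) := by
  have e := D1_eq g (by omega) h1
  have r1 := g.row1G (k := 1) (by omega) (by omega)
  have r2 := g.row1H (k := 1) (by omega) (by omega)
  have q1 := g.swap.row1G (k := 2) (by omega) (by omega)
  have p1 := g.row2G (k := 1) (by omega) (by omega)
  simp only [GForm.swap_s, GForm.swap_G, GForm.swap_lam'] at q1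
  rw [lam0 g (by omega) h1] at q1
  rw [← h1] at r1 r2 p1
  linear_combination (g.lam' 1 - 1) * e + q1 - p1 - r2

theorem de_eq (g : GForm F m) (hm : 2 ≤ m) (h1 : g.t 1 = g.s 1) :
    g.t 2 * g.mu' 1 * ((g.t 1 - 1) * (g.t 1 * (1 - g.lam' 0) + g.mu' 0)) =
      -(g.t 1 * (g.t 2 * (g.t 1 - 1) * (1 - (1 - g.lam' 0)) - g.t 1 * g.mu' 0 * (g.t 2 - 1))) := by
  have e := D1_eq g (by omega) h1
  have r1 := g.row1G (k := 1) (by omega) (by omega)
  have q2 := g.swap.row1H (k := 2) (by omega) (by omega)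
  have p2 := g.row2H (k := 1) (by omega) (by omega)
  simp only [GForm.swap_s, GForm.swap_H, GForm.swap_mu'] at q2
  rw [mu0 g (by omega) h1] at q2
  rw [← h1] at r1 p2
  linear_combination (-(g.t 2 * g.mu' 1)) * e + g.t 1 * g.t 2 * r1 - g.t 1 ^ 2 * q2
    + g.t 1 * g.t 2 * p2

/-- `t_2 kap_1^(2) = t_1 Lam` -/
theorem kap12_eq (g : GForm F m) (hm : 2 ≤ m) (h2 : g.t 2 = g.s 2) :
    g.t 2 * g.kap 1 2 = g.t 1 * (g.t 2 * (g.t 2 - 1) * (1 - g.lam' 0) +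
      g.t 1 * (g.t 2 - 1) * g.mu' 0 - g.t 2 * (g.t 1 - 1)) := by
  have r1 := g.row1G (k := 2) (by omega) (by omega)
  have r2 := g.row1H (k := 2) (by omega) (by omega)
  rw [← h2] at r1 r2
  rw [GForm.kap]
  linear_combination g.t 1 * g.t 2 * r1 - g.t 1 ^ 2 * r2

/-- `t_1 t_2 kap_1^(3)` -/
theorem kap13_eq (g : GForm F m) (hm : 3 ≤ m) :
    g.s 3 * g.kap 1 3 = g.t 1 * (g.s 3 * (1 - (1 - g.lam' 0) + (1 - g.lam' 0) * g.s 3) -
      g.t 1 ^ 2 * ((1 - g.mu' 0) * g.s 3 + g.mu' 0)) := by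
  have r1 := g.row1G (k := 3) (by omega) (by omega)
  have r2 := g.row1H (k := 3) (by omega) (by omega)
  rw [GForm.kap]
  linear_combination g.t 1 * g.s 3 * r1 - g.t 1 ^ 3 * r2

theorem lev3 (g : GForm F m) (hm : 3 ≤ m) (h1 : g.t 1 = g.s 1)
    (h2 : g.t 2 = g.s 2) (hk : g.kap 1 2 ≠ 0) :
    (g.s 3 = g.t 1 * g.t 2 ∧ (g.t 2 = g.t 1 ^ 2 ∨ g.kap 1 3 = 0)) ∨
    (g.s 3 ≠ g.t 1 * g.t 2 ∧ LL (g.t 1) (g.t 2) (g.s 3) (1 - g.lam' 0) (g.mu' 0) = 0 ∧
      TT (g.t 1) (g.t 2) (g.s 3) (1 - g.lam' 0) (g.mu' 0) = 0) := by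
  have ht := g.t_ne 1 (by omega)
  have ht2 := g.t_ne 2 (by omega)
  have hx : 1 - g.lam' 0 ≠ 0 := sub_ne_zero.2 (g.lam'_ne 0 (by omega)).symm
  have hy : g.mu' 0 ≠ 0 := g.mu'_ne 0 (by omega)
  have hLam : g.t 2 * (g.t 2 - 1) * (1 - g.lam' 0) +
      g.t 1 * (g.t 2 - 1) * g.mu' 0 - g.t 2 * (g.t 1 - 1) ≠ 0 := by
    intro h
    have e := kap12_eq g (by omega) h2
    rw [h, mul_zero] at e
    exact mul_ne_zero ht2 hk e
  have r1 := g.row1G (k := 2) (by omega) (by omega)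
  have r2 := g.row1H (k := 2) (by omega) (by omega)
  have r3 := g.row1G (k := 3) (by omega) (by omega)
  have r4 := g.row1H (k := 3) (by omega) (by omega)
  have p1 := g.row2G (k := 2) (by omega) (by omega)
  have p2 := g.row2H (k := 2) (by omega) (by omega)
  have p3 := g.row2G (k := 3) (by omega) (by omega)
  have p4 := g.row2H (k := 3) (by omega) (by omega)
  have u1 := g.G_succ (j := 1) (k := 2) (by omega) (by omega)
  have u2 := g.H_succ (j := 1) (k := 2) (by omega) (by omega)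
  have u3 := g.G_succ (j := 2) (k := 2) (by omega) (by omega)
  have u4 := g.H_succ (j := 2) (k := 2) (by omega) (by omega)
  rw [← h2] at r1 r2 p1 p2
  simp only [GForm.kap, Nat.reduceAdd] at u1 u2 u3 u4
  have hab : g.t 1 - g.t 2 ≠ 0 := sub_ne_zero.2 (g.t_inj 1 2 (by omega) (by omega))
  have hbc : g.t 2 - g.s 3 ≠ 0 := by
    rw [h2]; exact sub_ne_zero.2 (g.s_inj 2 3 (by omega) (by omega))
  obtain ⟨E1, E2⟩ := lev3_alg (x := 1 - g.lam' 0) (y := g.mu' 0) (al := 1 - g.lam' 1)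
    (de := g.mu' 1) (lam := g.lam 2) (mu := g.mu 2) ht ht2 hx hy hLam
    (al_eq g (by omega) h1) (de_eq g (by omega) h1)
    (by rw [r1]; ring) r2 (by rw [r3]; ring) r4 (by rw [p1]; ring) p2 (by rw [p3]; ring) p4
    u1 u2 u3 u4
  have F1 : (g.t 2 - g.s 3) * (g.t 1 * g.t 2 - g.s 3) *
      LL (g.t 1) (g.t 2) (g.s 3) (1 - g.lam' 0) (g.mu' 0) = 0 := by
    rw [LL]
    linear_combination g.s 3 * E1 - E2
  have F2 : (g.t 1 - g.t 2) * (g.t 1 * g.t 2 - g.s 3) *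
      TT (g.t 1) (g.t 2) (g.s 3) (1 - g.lam' 0) (g.mu' 0) = 0 := by
    rw [TT]
    linear_combination g.t 1 * g.t 2 * E1 - E2
  by_cases hc : g.s 3 = g.t 1 * g.t 2
  · left
    refine ⟨hc, ?_⟩
    by_cases hq : g.t 2 = g.t 1 ^ 2
    · exact Or.inl hq
    right
    have hb1 := t2_sub g (by omega)
    have hq' : g.t 1 ^ 2 - g.t 2 ≠ 0 := sub_ne_zero.2 (fun h => hq h.symm)
    have e := kap13_eq g (by omega)
    rw [hc] at E1 e
    have e2 : (g.t 2 - 1) * (g.t 1 ^ 2 - g.t 2) * (g.t 2 * g.kap 1 3) = 0 := by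
      apply mul_left_cancel₀ ht
      rw [mul_zero]
      linear_combination (g.t 2 - 1) * (g.t 1 ^ 2 - g.t 2) * e + g.t 1 ^ 2 * E1
    have e3 := (mul_eq_zero.1 e2).resolve_left (mul_ne_zero hb1 hq')
    exact (mul_eq_zero.1 e3).resolve_left ht2
  · right
    have hc' : g.t 1 * g.t 2 - g.s 3 ≠ 0 := sub_ne_zero.2 (fun h => hc h.symm)
    exact ⟨hc, (mul_eq_zero.1 F1).resolve_left (mul_ne_zero hbc hc'),
      (mul_eq_zero.1 F2).resolve_left (mul_ne_zero hab hc')⟩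

end Pool.Agent.Helper16.IP
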