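import Pool.Agent.Helper16.IP.Cell34

/-!
TH-P (MP_d2f54f_al), diagonal branch: type 1 at steps 2 and 3 (`s_4 t_1 = t_2^2`).
`a = t_1 = s_1`, `b = t_2 = s_2`, `c = t_3 = s_3`, `d = s_4 = b^2 / a`.
-/

namespace Pool.Agent.Helper16.IP

open Pool.Agent.Helper54.IP

variable {F : Type*} [Field F] {m : ℕ}

def w26 (a b c : F) : F :=
  a ^ 2 * b ^ 3 * c - a ^ 2 * b ^ 3 - 2 * a ^ 2 * b ^ 2 * c + a ^ 2 * b ^ 2 - a ^ 2 * b * c ^ 2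
  + 3 * a ^ 2 * b * c - a ^ 2 * b + a ^ 2 * c ^ 2 - a ^ 2 * c + a * b ^ 3 - a * b ^ 2 * c ^ 2 +
  a * b ^ 2 * c - a * b ^ 2 + a * b * c ^ 2 - a * b * c + a * b - a * c ^ 2 + b ^ 3 * c - b ^ 3
  + b ^ 2 * c ^ 2 - 3 * b ^ 2 * c + b ^ 2 - b * c ^ 2 + 2 * b * c + c ^ 2 - c

def x10 (a b c : F) : F :=
  -(a ^ 2 * b * c) + a ^ 2 * c - a * b + a * c + b ^ 3 + b ^ 2 * c - b ^ 2 - b * c - c ^ 2 + c

def y10 (a b c : F) : F :=
  a ^ 2 * b ^ 3 * c - a ^ 2 * b ^ 3 - a ^ 2 * b ^ 2 * c - a ^ 2 * b * c ^ 2 + a ^ 2 * b * c + a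
  ^ 2 * c ^ 2 + a * b ^ 3 * c - a * b ^ 2 * c ^ 2 + b ^ 3 * c - b ^ 2 * c

def z12 (a b c : F) : F :=
  -(a ^ 3 * b * c) + a ^ 3 * c + a ^ 2 * b ^ 2 * c - a ^ 2 * b * c - a ^ 2 * b + a ^ 2 * c + a *
  b ^ 2 * c - a * b * c ^ 2 - a * b * c + a * c + b ^ 2 * c - b * c

def k12 (a b c : F) : F :=
  -(a * b ^ 3 * c) + a * b ^ 2 * c + a * b ^ 2 + a * b * c ^ 2 - a * b * c - a * c ^ 2 - b ^ 4 -
  b ^ 3 * c + b ^ 3 + b ^ 2 * c ^ 2 + b ^ 2 * c - b * c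

def l8 (a b c : F) : F :=
  -(a ^ 3 * b * c) + a ^ 3 * b + a ^ 3 * c - a ^ 2 * b * c - a * b * c + b ^ 2 * c + b * c ^ 2 -
  b * c

def k3 (a b c : F) : F :=
  -(a ^ 2 * b * c) + a ^ 2 * b + a ^ 2 * c - a * b * c + a * c - b * c - c ^ 2 + c

def f32 (a b c : F) : F :=
  -(a ^ 5 * b ^ 3 * c) + a ^ 5 * b ^ 3 + a ^ 5 * b ^ 2 * c ^ 2 - a ^ 5 * b * c - a ^ 5 * c ^ 2 -
  2 * a ^ 4 * b ^ 3 * c + a ^ 4 * b ^ 3 + 2 * a ^ 4 * b ^ 2 * c ^ 2 + a ^ 4 * b ^ 2 * c - a ^ 4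
  * b * c ^ 2 - a ^ 3 * b ^ 3 * c ^ 2 - a ^ 3 * b ^ 3 * c + 2 * a ^ 3 * b ^ 2 * c ^ 2 + 2 * a ^
  3 * b ^ 2 * c + a ^ 3 * b * c ^ 3 - a ^ 3 * b * c ^ 2 + a ^ 2 * b ^ 4 * c - a ^ 2 * b ^ 4 - 2
  * a ^ 2 * b ^ 3 * c ^ 2 - 2 * a ^ 2 * b ^ 3 * c + a ^ 2 * b ^ 2 * c ^ 2 + a ^ 2 * b ^ 2 * c +
  a * b ^ 4 * c - a * b ^ 3 * c ^ 2 - 2 * a * b ^ 3 * c - a * b ^ 2 * c ^ 3 + 2 * a * b ^ 2 * c
  ^ 2 + b ^ 5 * c + b ^ 4 * c ^ 2 - b ^ 3 * c - b ^ 2 * c ^ 3 + b ^ 2 * c ^ 2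

def m45 (a b c : F) : F :=
  -(a ^ 5 * b ^ 3 * c) + a ^ 5 * b ^ 3 + a ^ 5 * b ^ 2 * c ^ 2 - a ^ 5 * b * c - a ^ 5 * c ^ 2 -
  a ^ 4 * b ^ 3 * c + 2 * a ^ 4 * b ^ 2 * c ^ 2 - 2 * a ^ 4 * b * c ^ 2 + a ^ 4 * b * c + a ^ 4
  * c ^ 2 - a ^ 3 * b ^ 4 * c + a ^ 3 * b ^ 4 - a ^ 3 * b ^ 3 * c ^ 2 + 2 * a ^ 3 * b ^ 3 * c -
  a ^ 3 * b ^ 3 + a ^ 3 * b ^ 2 * c ^ 2 + a ^ 3 * b ^ 2 * c + 2 * a ^ 3 * b * c ^ 3 - 3 * a ^ 3
  * b * c ^ 2 + a ^ 3 * b * c - a ^ 3 * c ^ 3 + a ^ 3 * c ^ 2 - a ^ 2 * b ^ 4 * c - a ^ 2 * b ^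
  3 * c ^ 2 + 2 * a ^ 2 * b ^ 3 * c - a ^ 2 * b ^ 3 + a ^ 2 * b ^ 2 * c ^ 3 - 2 * a ^ 2 * b ^ 2
  * c ^ 2 - a ^ 2 * b ^ 2 * c + a ^ 2 * b * c ^ 2 - a * b ^ 4 * c - a * b ^ 3 * c ^ 2 + 2 * a *
  b ^ 3 * c + a * b ^ 2 * c ^ 2 - 2 * a * b ^ 2 * c - a * b * c ^ 3 + a * b * c ^ 2 + b ^ 5 * c
  + b ^ 4 * c ^ 2 - b ^ 4 * c - b ^ 3 * c ^ 2 + b ^ 3 * c - b ^ 2 * c ^ 3 + 2 * b ^ 2 * c ^ 2 -
  b ^ 2 * c

def m38 (a b c : F) : F :=
  a ^ 4 * b ^ 2 * c ^ 2 - a ^ 4 * b ^ 2 * c - 2 * a ^ 4 * b * c ^ 2 + a ^ 4 * b * c + a ^ 4 * c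
  ^ 2 - a ^ 3 * b ^ 3 * c + a ^ 3 * b ^ 3 + 2 * a ^ 3 * b ^ 2 * c ^ 2 + a ^ 3 * b ^ 2 * c - a ^
  3 * b ^ 2 - 4 * a ^ 3 * b * c ^ 2 + 2 * a ^ 3 * c ^ 2 - a ^ 2 * b ^ 3 * c + 2 * a ^ 2 * b ^ 2
  * c ^ 2 + 3 * a ^ 2 * b ^ 2 * c - a ^ 2 * b ^ 2 + a ^ 2 * b * c ^ 3 - 4 * a ^ 2 * b * c ^ 2 -
  a ^ 2 * b * c - a ^ 2 * c ^ 3 + 2 * a ^ 2 * c ^ 2 - a * b ^ 4 * c + a * b ^ 4 - a * b ^ 3 * c
  ^ 2 + 2 * a * b ^ 3 * c - a * b ^ 3 + a * b ^ 2 * c ^ 2 + a * b ^ 2 * c + a * b * c ^ 3 - 3 *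
  a * b * c ^ 2 - a * c ^ 3 + a * c ^ 2 - b ^ 4 * c - b ^ 3 * c ^ 2 + b ^ 3 * c + b ^ 2 * c ^ 2
  + b * c ^ 3 - b * c ^ 2

def e12 (a b c : F) : F :=
  -(a ^ 3 * b * c ^ 2) + a ^ 3 * c ^ 2 - a ^ 2 * b ^ 3 + a ^ 2 * b ^ 2 * c - a ^ 2 * b * c ^ 2 +
  a ^ 2 * c ^ 2 + a * b ^ 4 - a * b ^ 3 + a * b ^ 2 * c - a * b * c ^ 2 + b ^ 4 - b ^ 3

def e20 (a b c : F) : F :=
  -(a ^ 5 * c) - a ^ 4 * b ^ 2 + a ^ 4 * b + a ^ 4 * c ^ 2 + a ^ 3 * b ^ 3 - a ^ 3 * b ^ 2 + a ^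
  3 * b + a ^ 3 * c + a ^ 2 * b ^ 3 - a ^ 2 * b ^ 2 * c - 2 * a ^ 2 * b ^ 2 - a ^ 2 * b * c ^ 2
  + a ^ 2 * b * c + a * b ^ 3 - 2 * a * b ^ 2 - a * b * c ^ 2 + a * b * c + b ^ 3 + b ^ 2 * c -
  b ^ 2

def p8 (a b c : F) : F :=
  a ^ 3 * b * c - a ^ 3 * b - a ^ 3 * c + a ^ 2 * b * c + a * b ^ 2 - b ^ 3 - b ^ 2 * c + b ^ 2

def k38 (a b c : F) : F :=
  -(a ^ 6 * b ^ 3 * c) + a ^ 6 * b ^ 3 + a ^ 6 * b ^ 2 * c + a ^ 6 * b * c ^ 2 - a ^ 6 * b * c -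
  a ^ 6 * c ^ 2 + a ^ 5 * b ^ 4 * c - a ^ 5 * b ^ 4 - 3 * a ^ 5 * b ^ 3 * c + a ^ 5 * b ^ 3 + a
  ^ 5 * b ^ 2 * c ^ 2 + a ^ 5 * b ^ 2 * c + a ^ 4 * b ^ 4 * c - 3 * a ^ 4 * b ^ 3 * c + 2 * a ^
  4 * b ^ 2 * c - a ^ 3 * b ^ 5 * c + a ^ 3 * b ^ 5 + 3 * a ^ 3 * b ^ 4 * c - a ^ 3 * b ^ 4 + a
  ^ 3 * b ^ 3 * c ^ 2 - 3 * a ^ 3 * b ^ 3 * c - a ^ 3 * b ^ 2 * c ^ 2 + a ^ 3 * b ^ 2 * c - 2 *
  a ^ 2 * b ^ 5 * c + 3 * a ^ 2 * b ^ 4 * c - a ^ 2 * b ^ 3 * c - a * b ^ 5 * c - a * b ^ 5 - a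
  * b ^ 4 * c ^ 2 + 3 * a * b ^ 4 * c + a * b ^ 3 * c ^ 2 - a * b ^ 3 * c + b ^ 7 + b ^ 6 * c -
  b ^ 6 - b ^ 5 * c - b ^ 4 * c ^ 2 + b ^ 4 * c

/-- the chart `x, y` as functions of `a, b, c` -/
theorem chart_alg {a b c x y : F} (hL : LL a b c x y = 0) (hT : TT a b c x y = 0) :
    w26 a b c * x = (a - 1) * x10 a b c ∧ a * w26 a b c * y = (a - 1) * y10 a b c := by
  rw [LL] at hL
  rw [TT] at hT
  rw [w26, x10, y10]
  constructor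
  · linear_combination (a * (b ^ 2 - b - c + 1)) * hL - (1 - b - c + a * c) * hT
  · linear_combination (b - a * c - a * b + a * b * c) * hT - (b ^ 2 * c - b ^ 2 - b * c + c) * hL

theorem w26_ne {a b c x y : F} (ha1 : a - 1 ≠ 0) (hb1 : b - 1 ≠ 0)
    (hab : a - b ≠ 0) (habc : a * b - c ≠ 0) (hapb : a + b ≠ 0) (hL : LL a b c x y = 0)
    (hT : TT a b c x y = 0) : w26 a b c ≠ 0 := by
  obtain ⟨hx, hy⟩ := chart_alg hL hT
  intro hw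
  have e : (a - 1) * (b - 1) * (a - b) * (a * b - c) * (a + b) = 0 := by
    have : a * w26 a b c * ((a - 1) * (y - 1) + x * (b - 1)) =
        -((a - 1) * (b - 1) * (a - b) * (a * b - c) * (a + b)) := by
      have h3 : (a - 1) * ((a - 1) * y10 a b c - a * w26 a b c) +
          a * (b - 1) * ((a - 1) * x10 a b c) =
          -((a - 1) * (b - 1) * (a - b) * (a * b - c) * (a + b)) := by
        rw [w26, x10, y10]; ring
      linear_combination h3 + a * (b - 1) * hx + (a - 1) * hy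
    rw [hw] at this
    linear_combination this
  exact (mul_ne_zero (mul_ne_zero (mul_ne_zero (mul_ne_zero ha1 hb1) hab) habc) hapb) e

/-- the data of the state `011` -/
theorem p5_alg {a b c d x y G12 H12 G13 H13 G14 H14 L M L3 M3 : F}
    (ha : a ≠ 0) (hb : b ≠ 0) (hc : c ≠ 0) (ha1 : a - 1 ≠ 0) (hb1 : b - 1 ≠ 0)
    (hab : a - b ≠ 0) (habc : a * b - c ≠ 0) (hapb : a + b ≠ 0)
    (had : a * d = b ^ 2)
    (hL : LL a b c x y = 0) (hT : TT a b c x y = 0)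
    (hA : c * (a ^ 3 * H13 - G14) * b = d * (a ^ 3 * H14 - G13))
    (g12 : G12 = 1 - x + x * b) (h12 : b * H12 = (1 - y) * b + y)
    (g13 : G13 = 1 - x + x * c) (h13 : c * H13 = (1 - y) * c + y)
    (g14 : G14 = 1 - x + x * d) (h14 : d * H14 = (1 - y) * d + y)
    (hk2 : a * G12 - a ^ 2 * H12 ≠ 0) (hk3 : a * G13 - a ^ 3 * H13 ≠ 0)
    (e1 : L * (a * G12 - a ^ 2 * H12) = G13 - a ^ 2 * H12)
    (e2 : M * (a * G12 - a ^ 2 * H12) = a * G12 - a ^ 3 * H13)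
    (e3 : L3 * (a * G13 - a ^ 3 * H13) = G14 - a ^ 3 * H13)
    (e4 : M3 * (a * G13 - a ^ 3 * H13) = a * G13 - a ^ 4 * H14) :
    f32 a b c = 0 ∧ L * a * ((a - b) * k12 a b c) = (b - c) * l8 a b c ∧
    M * c * ((a - b) * k12 a b c) = b ^ 2 * ((b - c) * l8 a b c) ∧
    L3 * a ^ 2 * ((b - c) * (a * b - c)) = (a * c - b ^ 2) * (a ^ 2 - b) ∧
    M3 * b * ((b - c) * (a * b - c)) = c * ((a * c - b ^ 2) * (a ^ 2 - b)) ∧
    k3 a b c ≠ 0 ∧ k12 a b c ≠ 0 ∧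
    (a * x + y ≠ 0 → z12 a b c ≠ 0) ∧ (k38 a b c = 0 → a * G14 - a ^ 4 * H14 = 0) := by
  obtain ⟨hx, hy⟩ := chart_alg hL hT
  have hw := w26_ne ha1 hb1 hab habc hapb hL hT
  -- the additive relation at step 3
  have T3 : b * (a * c - b) * ((1 - x) - a ^ 3 * (1 - y)) +
      (b - 1) * (c * b ^ 2 * x - a ^ 4 * y) = 0 := by
    rw [g13, g14] at hA
    linear_combination (-a) * hA + a ^ 4 * b * h13 - a ^ 4 * h14
      - (b * c * x - (1 - x) - x * c + a ^ 3 * (1 - y)) * had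
  have hf : f32 a b c = 0 := by
    have e : (a - 1) * (b - 1) * f32 a b c = w26 a b c * (b * (a * c - b) *
        ((1 - x) - a ^ 3 * (1 - y)) + (b - 1) * (c * b ^ 2 * x - a ^ 4 * y)) := by
      have h3 : (a - 1) * (b - 1) * f32 a b c = w26 a b c * (b * (a * c - b) * (1 - a ^ 3)) +
          (-(b * (a * c - b)) + (b - 1) * c * b ^ 2) * ((a - 1) * x10 a b c) +
          (b * (a * c - b) * a ^ 2 - (b - 1) * a ^ 3) * ((a - 1) * y10 a b c) := by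
        rw [f32, w26, x10, y10]; ring
      linear_combination h3 - (-(b * (a * c - b)) + (b - 1) * c * b ^ 2) * hx
        - (b * (a * c - b) * a ^ 2 - (b - 1) * a ^ 3) * hy
    rw [T3, mul_zero] at e
    exact (mul_eq_zero.1 e).resolve_left (mul_ne_zero ha1 hb1)
  have k12e : w26 a b c * (b * (a * G12 - a ^ 2 * H12)) = a * (a - 1) * (a - b) * k12 a b c := by
    have h3 : w26 a b c * (a * b - a ^ 2 * b) + a * b * (b - 1) * ((a - 1) * x10 a b c) +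
        a * (b - 1) * ((a - 1) * y10 a b c) = a * (a - 1) * (a - b) * k12 a b c := by
      rw [k12, w26, x10, y10]; ring
    rw [g12]
    linear_combination h3 + a * b * (b - 1) * hx + a * (b - 1) * hy - w26 a b c * a ^ 2 * h12
  have l8e : w26 a b c * (b * (G13 - a ^ 2 * H12)) = (a - 1) * (b - c) * l8 a b c := by
    have h3 : w26 a b c * (b - a ^ 2 * b) + b * (c - 1) * ((a - 1) * x10 a b c) +
        a * (b - 1) * ((a - 1) * y10 a b c) = (a - 1) * (b - c) * l8 a b c := by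
      rw [l8, w26, x10, y10]; ring
    rw [g13]
    linear_combination h3 + b * (c - 1) * hx + a * (b - 1) * hy - w26 a b c * a ^ 2 * h12
  have m8e : w26 a b c * (c * (a * G12 - a ^ 3 * H13)) =
      a * b * (a - 1) * (b - c) * l8 a b c := by
    have h3 : w26 a b c * (a * c - a ^ 3 * c) + a * c * (b - 1) * ((a - 1) * x10 a b c) +
        a ^ 2 * (c - 1) * ((a - 1) * y10 a b c) = a * b * (a - 1) * (b - c) * l8 a b c := by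
      rw [l8, w26, x10, y10]; ring
    rw [g12]
    linear_combination h3 + a * c * (b - 1) * hx + a ^ 2 * (c - 1) * hy - w26 a b c * a ^ 3 * h13
  have k13e : w26 a b c * (c * (a * G13 - a ^ 3 * H13)) =
      a * (a - 1) * (b - c) * (a * b - c) * k3 a b c := by
    have h3 : w26 a b c * (a * c - a ^ 3 * c) + a * c * (c - 1) * ((a - 1) * x10 a b c) +
        a ^ 2 * (c - 1) * ((a - 1) * y10 a b c) =
        a * (a - 1) * (b - c) * (a * b - c) * k3 a b c := by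
      rw [k3, w26, x10, y10]; ring
    rw [g13]
    linear_combination h3 + a * c * (c - 1) * hx + a ^ 2 * (c - 1) * hy - w26 a b c * a ^ 3 * h13
  have k14e : w26 a b c * (b ^ 2 * (a * G14 - a ^ 4 * H14)) = (a - 1) * k38 a b c := by
    have h3 : w26 a b c * (a * b ^ 2 - a ^ 4 * b ^ 2) +
        b ^ 2 * (b ^ 2 - a) * ((a - 1) * x10 a b c) +
        a ^ 3 * (b ^ 2 - a) * ((a - 1) * y10 a b c) = (a - 1) * k38 a b c := by
      rw [k38, w26, x10, y10]; ring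
    rw [g14]
    linear_combination h3 + b ^ 2 * (b ^ 2 - a) * hx + a ^ 3 * (b ^ 2 - a) * hy
      + (w26 a b c * b ^ 2 * x + w26 a b c * a ^ 4 * H14 - w26 a b c * a ^ 4 * (1 - y)) * had
      - w26 a b c * a ^ 5 * h14
  have hK12 : k12 a b c ≠ 0 := by
    intro h
    rw [h, mul_zero] at k12e
    exact (mul_ne_zero hw (mul_ne_zero hb hk2)) k12e
  have hK3 : k3 a b c ≠ 0 := by
    intro h
    rw [h, mul_zero] at k13e
    exact (mul_ne_zero hw (mul_ne_zero hc hk3)) k13e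
  refine ⟨hf, ?_, ?_, ?_, ?_, hK3, hK12, ?_, ?_⟩
  · apply mul_left_cancel₀ ha1
    linear_combination (-L) * k12e + l8e + w26 a b c * b * e1
  · apply mul_left_cancel₀ (mul_ne_zero ha ha1)
    linear_combination (-(M * c)) * k12e + b * m8e + w26 a b c * b * c * e2
  · have e : w26 a b c * (a * c * (a ^ 2 * ((b - c) * (a * b - c)) * (G14 - a ^ 3 * H13) -
        (a * c - b ^ 2) * (a ^ 2 - b) * (a * G13 - a ^ 3 * H13))) = 0 := by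
      obtain ⟨E, hE⟩ : ∃ z, z = (b - c) * (a * b - c) := ⟨_, rfl⟩
      obtain ⟨P, hP⟩ : ∃ z, z = (a * c - b ^ 2) * (a ^ 2 - b) := ⟨_, rfl⟩
      have h3 : w26 a b c * (a ^ 2 * E * (a * c - a ^ 4 * c) - a * P * (a * c - a ^ 3 * c)) +
          (a ^ 2 * c * E * (b ^ 2 - a) - a ^ 2 * c * P * (c - 1)) * ((a - 1) * x10 a b c) +
          a ^ 3 * (c - 1) * (a ^ 2 * E - P) * ((a - 1) * y10 a b c) =
          a ^ 2 * (a - 1) * E * f32 a b c := by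
        rw [hE, hP, f32, w26, x10, y10]; ring
      rw [← hE, ← hP, g13, g14]
      linear_combination h3 + (a ^ 2 * c * E * (b ^ 2 - a) - a ^ 2 * c * P * (c - 1)) * hx
        + a ^ 3 * (c - 1) * (a ^ 2 * E - P) * hy + w26 a b c * a ^ 2 * E * c * x * had
        - w26 a b c * a ^ 4 * (a ^ 2 * E - P) * h13 + a ^ 2 * (a - 1) * E * hf
    have e' := (mul_eq_zero.1 ((mul_eq_zero.1 e).resolve_left hw)).resolve_left (mul_ne_zero ha hc)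
    apply mul_left_cancel₀ hk3
    linear_combination e' + a ^ 2 * ((b - c) * (a * b - c)) * e3
  · have e : w26 a b c * (b ^ 2 * c * (b * ((b - c) * (a * b - c)) * (a * G13 - a ^ 4 * H14) -
        c * ((a * c - b ^ 2) * (a ^ 2 - b)) * (a * G13 - a ^ 3 * H13))) = 0 := by
      obtain ⟨E, hE⟩ : ∃ z, z = (b - c) * (a * b - c) := ⟨_, rfl⟩
      obtain ⟨P, hP⟩ : ∃ z, z = (a * c - b ^ 2) * (a ^ 2 - b) := ⟨_, rfl⟩
      have h3 : w26 a b c * (b * E * c * (a * b ^ 2 - a ^ 4 * b ^ 2) -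
            c * P * b ^ 2 * (a * c - a ^ 3 * c)) +
          a * b ^ 2 * c * (c - 1) * (b * E - c * P) * ((a - 1) * x10 a b c) +
          (a ^ 3 * (b ^ 2 - a) * b * c * E - a ^ 2 * b ^ 2 * c * P * (c - 1)) *
            ((a - 1) * y10 a b c) = a * b * c * (a - 1) * E * f32 a b c := by
        rw [hE, hP, f32, w26, x10, y10]; ring
      rw [← hE, ← hP, g13]
      linear_combination h3 + a * b ^ 2 * c * (c - 1) * (b * E - c * P) * hx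
        + (a ^ 3 * (b ^ 2 - a) * b * c * E - a ^ 2 * b ^ 2 * c * P * (c - 1)) * hy
        + w26 a b c * b * c * E * a ^ 4 * (H14 - (1 - y)) * had
        - w26 a b c * b * c * E * a ^ 5 * h14 + w26 a b c * b ^ 2 * c * P * a ^ 3 * h13
        + a * b * c * (a - 1) * E * hf
    have e' := (mul_eq_zero.1 ((mul_eq_zero.1 e).resolve_left hw)).resolve_left
      (mul_ne_zero (pow_ne_zero 2 hb) hc)
    apply mul_left_cancel₀ hk3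
    linear_combination e' + b * ((b - c) * (a * b - c)) * e4
  · have h3 : a ^ 2 * ((a - 1) * x10 a b c) + (a - 1) * y10 a b c =
        (a - 1) * (a + b) * z12 a b c := by
      rw [z12, x10, y10]; ring
    have h4 : a * w26 a b c * (a * x + y) = (a - 1) * (a + b) * z12 a b c := by
      linear_combination h3 + a ^ 2 * hx + hy
    intro haxy hz
    rw [hz, mul_zero] at h4
    exact (mul_ne_zero (mul_ne_zero ha hw) haxy) h4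
  · intro hk
    rw [hk, mul_zero] at k14e
    exact (mul_eq_zero.1 ((mul_eq_zero.1 k14e).resolve_left hw)).resolve_left (pow_ne_zero 2 hb)

/-- the end of the state `011`: the two cell equations give `kap_1^(4) = 0` -/
theorem p5_fin {a b c d L M L3 M3 : F}
    (ha : a ≠ 0) (hb : b ≠ 0) (hc : c ≠ 0) (hb1 : b - 1 ≠ 0)
    (hab : a - b ≠ 0) (hbc : b - c ≠ 0) (habc : a * b - c ≠ 0)
    (had : a * d = b ^ 2) (hf : f32 a b c = 0) (hL30 : L3 ≠ 0)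
    (qL : L * a * ((a - b) * k12 a b c) = (b - c) * l8 a b c)
    (qM : M * c * ((a - b) * k12 a b c) = b ^ 2 * ((b - c) * l8 a b c))
    (qL3 : L3 * a ^ 2 * ((b - c) * (a * b - c)) = (a * c - b ^ 2) * (a ^ 2 - b))
    (qM3 : M3 * b * ((b - c) * (a * b - c)) = c * ((a * c - b ^ 2) * (a ^ 2 - b)))
    (hK3 : k3 a b c ≠ 0) (hz : z12 a b c ≠ 0)
    (I1 : (c - 1) * (c - a) * (c - b) * ((b - 1) * (b - a) * (L3 * L * c + (1 - L3) * (1 - M)) +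
      L3 * ((c - 1) * (c - a))) = (b - 1) * (b - a) * (L * ((d - 1) * (d - a) * (d - b))))
    (I2 : (c - 1) * (c - a) * (c - b) * d ^ 3 * ((b - 1) * (b - a) *
      (c * (M3 * M) + c ^ 2 * ((1 - M3) * (1 - L))) + b ^ 2 * M3 * ((c - 1) * (c - a))) =
      c ^ 5 * ((b - 1) * (b - a)) * (M * ((d - 1) * (d - a) * (d - b)))) :
    p8 a b c = 0 ∧ k38 a b c = 0 := by
  have hd3 : a ^ 3 * ((d - 1) * (d - a) * (d - b)) = b * ((b ^ 2 - a) * (b - a) ^ 2 * (b + a)) := by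
    have : a ^ 3 * ((d - 1) * (d - a) * (d - b)) = (a * d - a) * (a * d - a ^ 2) * (a * d - a * b) := by
      ring
    rw [this, had]; ring
  have hd6 : a ^ 3 * d ^ 3 = b ^ 6 := by
    have : a ^ 3 * d ^ 3 = (a * d) ^ 3 := by ring
    rw [this, had]; ring
  have hP0 : (a * c - b ^ 2) * (a ^ 2 - b) ≠ 0 := by
    rw [← qL3]
    exact mul_ne_zero (mul_ne_zero hL30 (pow_ne_zero 2 ha)) (mul_ne_zero hbc habc)
  have hcb : c * (b - c) * ((a * c - b ^ 2) * (a ^ 2 - b)) ≠ 0 :=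
    mul_ne_zero (mul_ne_zero hc hbc) hP0
  have hnd : (a - b) * (b - c) ^ 2 * (a * b - c) ≠ 0 :=
    mul_ne_zero (mul_ne_zero hab (pow_ne_zero 2 hbc)) habc
  obtain ⟨E, hE⟩ : ∃ z, z = (b - c) * (a * b - c) := ⟨_, rfl⟩
  obtain ⟨P, hP⟩ : ∃ z, z = (a * c - b ^ 2) * (a ^ 2 - b) := ⟨_, rfl⟩
  obtain ⟨D, hDD⟩ : ∃ z, z = (a - b) * k12 a b c := ⟨_, rfl⟩
  obtain ⟨N, hN⟩ : ∃ z, z = (b - c) * l8 a b c := ⟨_, rfl⟩
  obtain ⟨R, hR⟩ : ∃ z, z = (b ^ 2 - a) * (b - a) ^ 2 * (b + a) := ⟨_, rfl⟩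
  rw [← hDD, ← hN] at qL qM
  rw [← hE, ← hP] at qL3 qM3
  rw [← hR] at hd3
  have S1 : (c - 1) * (c - a) * (c - b) * ((b - 1) * (b - a) * (a * c ^ 2 * P * N +
      a ^ 2 * (a ^ 2 * E - P) * (c * D - b ^ 2 * N)) + a ^ 2 * c * D * P * ((c - 1) * (c - a))) -
      (b - 1) * (b - a) * c * E * N * (b * R) = 0 := by
    rw [← qL3, ← qM, ← qL]
    linear_combination (a ^ 4 * c * D * E) * I1 + (b - 1) * (b - a) * c * E * (L * a * D) * hd3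
  have S2 : b ^ 4 * c * ((c - 1) * (c - a) * (c - b) * b ^ 2 * ((b - 1) * (b - a) *
      (a * b ^ 2 * P * N + c * (b * E - c * P) * (a * D - N)) + a * b ^ 2 * D * P *
      ((c - 1) * (c - a))) - c ^ 3 * ((b - 1) * (b - a)) * a * E * N * R) = 0 := by
    have I2' : (c - 1) * (c - a) * (c - b) * b ^ 6 * ((b - 1) * (b - a) *
      (c * (M3 * M) + c ^ 2 * ((1 - M3) * (1 - L))) + b ^ 2 * M3 * ((c - 1) * (c - a))) =
      c ^ 5 * ((b - 1) * (b - a)) * (M * (b * R)) := by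
      rw [← hd3, ← hd6]
      linear_combination a ^ 3 * I2
    have T : (c - 1) * (c - a) * (c - b) * b ^ 6 * ((b - 1) * (b - a) *
        (a * (M3 * b * E) * (M * c * D) + c ^ 2 * (b * E - M3 * b * E) * (a * D - L * a * D)) +
        a * b ^ 2 * D * (M3 * b * E) * ((c - 1) * (c - a))) =
        c ^ 4 * ((b - 1) * (b - a)) * (a * b * E) * ((M * c * D) * (b * R)) := by
      linear_combination (a * b * D * E) * I2'
    rw [qM3, qM, qL] at T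
    linear_combination T
  have S2' := (mul_eq_zero.1 S2).resolve_left (mul_ne_zero (pow_ne_zero 4 hb) hc)
  have hM45 : m45 a b c = 0 := by
    have e : (a - b) * (b - c) ^ 2 * (a * b - c) * (c * (b - c) *
        ((a * c - b ^ 2) * (a ^ 2 - b))) * m45 a b c = 0 := by
      have h3 : (a - b) * (b - c) ^ 2 * (a * b - c) * (c * (b - c) *
          ((a * c - b ^ 2) * (a ^ 2 - b)) * m45 a b c + (a ^ 3 * b ^ 2 * c - a ^ 3 * b ^ 2 - a ^ 3 * b * c ^ 2 - a ^ 3 * b * c + a ^ 3 * b + a ^ 3 * c ^ 3 + a ^ 2 * b ^ 3 * c - 2 * a ^ 2 * b ^ 2 * c ^ 2 + a ^ 2 * b ^ 2 * c + 2 * a ^ 2 * b * c ^ 2 - a ^ 2 * b * c - a ^ 2 * c ^ 2 - a * b ^ 3 * c + a * b ^ 2 * c - a * b * c ^ 3 + a * b * c ^ 2 + b ^ 3 * c ^ 2 - b ^ 3 * c) * f32 a b c) =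
          (c - 1) * (c - a) * (c - b) * ((b - 1) * (b - a) * (a * c ^ 2 * P * N +
      a ^ 2 * (a ^ 2 * E - P) * (c * D - b ^ 2 * N)) + a ^ 2 * c * D * P * ((c - 1) * (c - a))) -
      (b - 1) * (b - a) * c * E * N * (b * R) := by
        rw [hE, hP, hDD, hN, hR, m45, f32, k12, l8]; ring
      rw [S1, hf] at h3
      linear_combination h3
    exact (mul_eq_zero.1 e).resolve_left (mul_ne_zero hnd hcb)
  have hM38 : m38 a b c = 0 := by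
    have e : (a - b) * (b - c) ^ 2 * (a * b - c) * (a * b * (b - c) *
        ((a * c - b ^ 2) * (a ^ 2 - b))) * m38 a b c = 0 := by
      have h3 : (a - b) * (b - c) ^ 2 * (a * b - c) * (a * b * (b - c) *
          ((a * c - b ^ 2) * (a ^ 2 - b)) * m38 a b c + (a ^ 3 * b * c ^ 2 - a ^ 3 * c ^ 2 - a ^ 2 * b ^ 3 * c - a ^ 2 * b ^ 2 * c ^ 2 + a ^ 2 * b ^ 2 * c + a ^ 2 * b * c ^ 2 + a * b ^ 4 * c + a * b ^ 3 * c ^ 2 - 2 * a * b ^ 3 * c - a * b ^ 2 * c ^ 2 + a * b ^ 2 * c - b ^ 3 * c ^ 3 + b ^ 3 * c ^ 2 + b ^ 2 * c ^ 3 - b ^ 2 * c ^ 2) * f32 a b c) =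
          (c - 1) * (c - a) * (c - b) * b ^ 2 * ((b - 1) * (b - a) *
      (a * b ^ 2 * P * N + c * (b * E - c * P) * (a * D - N)) + a * b ^ 2 * D * P *
      ((c - 1) * (c - a))) - c ^ 3 * ((b - 1) * (b - a)) * a * E * N * R := by
        rw [hE, hP, hDD, hN, hR, m38, f32, k12, l8]; ring
      rw [S2', hf] at h3
      linear_combination h3
    exact (mul_eq_zero.1 e).resolve_left (mul_ne_zero hnd
      (mul_ne_zero (mul_ne_zero (mul_ne_zero ha hb) hbc) hP0))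
  have hE12 : e12 a b c = 0 := by
    have h3 : k3 a b c * e12 a b c = b * m45 a b c + a * c * m38 a b c - b * f32 a b c := by
      rw [k3, e12, m45, m38, f32]; ring
    rw [hM45, hM38, hf] at h3
    exact (mul_eq_zero.1 (h3.trans (by ring))).resolve_left hK3
  have hE20 : e20 a b c = 0 := by
    have h3 : (b - 1) * (-c) * e20 a b c = m45 a b c - f32 a b c + (-a ^ 2 + a * c) * e12 a b c := by
      rw [e12, e20, m45, f32]; ring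
    rw [hM45, hE12, hf] at h3
    exact (mul_eq_zero.1 (h3.trans (by ring))).resolve_left
      (mul_ne_zero hb1 (neg_ne_zero.2 hc))
  have hP8 : p8 a b c = 0 := by
    have h3 : b * z12 a b c * p8 a b c = (-(a ^ 5) - a ^ 4 * b + a ^ 3 * b * c + a ^ 3 * c ^ 2 + a ^ 2 * c - a * b ^ 2 * c - a * b * c ^ 2 + 2 * a * b * c - b ^ 2 * c - b * c ^ 2 + b * c) * e12 a b c + (a ^ 3 * b * c - a ^ 3 * c + a ^ 2 * b ^ 2 + a ^ 2 * b * c ^ 2 - a ^ 2 * c ^ 2 - a * b ^ 2 * c + a * b * c ^ 2 - a * c ^ 2) * e20 a b c +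
        (-(a ^ 2) + a * b + a * c - a) * f32 a b c := by
      rw [z12, e12, e20, f32, p8]; ring
    rw [hE12, hE20, hf] at h3
    exact (mul_eq_zero.1 (h3.trans (by ring))).resolve_left (mul_ne_zero hb hz)
  refine ⟨hP8, ?_⟩
  have h3 : k38 a b c = (-(a ^ 3 * b ^ 2) + a ^ 3 * c + a ^ 2 * b ^ 3 - a ^ 2 * b ^ 2 + a * b ^ 2 * c - a * b * c - b ^ 4 + b ^ 2 * c) * p8 a b c + (-(a ^ 2 * b) + a * b ^ 2) * e12 a b c := by
    rw [k38, p8, e12]; ring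
  rw [h3, hP8, hE12]
  ring

end Pool.Agent.Helper16.IP
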