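import Pool.Agent.Helper16.IP.P5

/-!
TH-P (MP_d2f54f_al), diagonal branch: type 1 at steps 2 and 3 forces the corner to be closed at
column 4.
-/

namespace Pool.Agent.Helper16.IP

open Pool.Agent.Helper54.IP

variable {F : Type*} [Field F] {m : ℕ}

private theorem inv_clear {a b c d L M M3 : F} (ha : a ≠ 0) (hb : b ≠ 0) (hc : c ≠ 0) (hd : d ≠ 0)
    (h : (c⁻¹ - 1) * (c⁻¹ - a⁻¹) * (c⁻¹ - b⁻¹) * ((b⁻¹ - 1) * (b⁻¹ - a⁻¹) *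
      (M3 * M * c⁻¹ + (1 - M3) * (1 - L)) + M3 * ((c⁻¹ - 1) * (c⁻¹ - a⁻¹))) =
      (b⁻¹ - 1) * (b⁻¹ - a⁻¹) * (M * ((d⁻¹ - 1) * (d⁻¹ - a⁻¹) * (d⁻¹ - b⁻¹)))) :
    (c - 1) * (c - a) * (c - b) * d ^ 3 * ((b - 1) * (b - a) *
      (c * (M3 * M) + c ^ 2 * ((1 - M3) * (1 - L))) + b ^ 2 * M3 * ((c - 1) * (c - a))) =
      c ^ 5 * ((b - 1) * (b - a)) * (M * ((d - 1) * (d - a) * (d - b))) := by
  have e : (c - 1) * (c - a) * (c - b) * d ^ 3 * ((b - 1) * (b - a) *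
      (c * (M3 * M) + c ^ 2 * ((1 - M3) * (1 - L))) + b ^ 2 * M3 * ((c - 1) * (c - a))) -
      c ^ 5 * ((b - 1) * (b - a)) * (M * ((d - 1) * (d - a) * (d - b))) =
      -(a ^ 2 * b ^ 3 * c ^ 5 * d ^ 3) *
      ((c⁻¹ - 1) * (c⁻¹ - a⁻¹) * (c⁻¹ - b⁻¹) * ((b⁻¹ - 1) * (b⁻¹ - a⁻¹) *
      (M3 * M * c⁻¹ + (1 - M3) * (1 - L)) + M3 * ((c⁻¹ - 1) * (c⁻¹ - a⁻¹))) -
      (b⁻¹ - 1) * (b⁻¹ - a⁻¹) * (M * ((d⁻¹ - 1) * (d⁻¹ - a⁻¹) * (d⁻¹ - b⁻¹)))) := by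
    field_simp
    ring
  rw [h, sub_self, mul_zero] at e
  exact sub_eq_zero.1 e

/-- the dual form of the cell `(3,4)` -/
theorem cell34_dual (g : GForm F m) (hm : 4 ≤ m) (hD : g.G 1 1 ≠ g.H 1 1) (h1 : g.t 1 = g.s 1)
    (h2 : g.t 2 = g.s 2) (h3 : g.t 3 = g.s 3) :
    (g.s 3 - 1) * (g.s 3 - g.t 1) * (g.s 3 - g.t 2) * g.s 4 ^ 3 * ((g.t 2 - 1) * (g.t 2 - g.t 1) *
      (g.s 3 * (g.mu 3 * g.mu' 2) + g.s 3 ^ 2 * ((1 - g.mu 3) * (1 - (1 - g.lam' 2)))) +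
      g.t 2 ^ 2 * g.mu 3 * ((g.s 3 - 1) * (g.s 3 - g.t 1))) =
      g.s 3 ^ 5 * ((g.t 2 - 1) * (g.t 2 - g.t 1)) *
      (g.mu' 2 * ((g.s 4 - 1) * (g.s 4 - g.t 1) * (g.s 4 - g.t 2))) := by
  have h := cell34 g.inv hm (fun h => hD h.symm) (by simp only [GForm.inv_t, GForm.inv_s, h1])
    (by simp only [GForm.inv_t, GForm.inv_s, h2]) (by simp only [GForm.inv_t, GForm.inv_s, h3])
  simp only [GForm.inv_t, GForm.inv_s, GForm.inv_lam, GForm.inv_lam', GForm.inv_mu', sub_sub_cancel]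
    at h
  apply inv_clear (g.t_ne 1 (by omega)) (g.t_ne 2 (by omega)) (g.s_ne 3 (by omega))
    (g.s_ne 4 (by omega))
  rw [sub_sub_cancel]
  exact h

/-- type 1 at steps 2 and 3: closed at column 4 -/
theorem p5_closed (g : GForm F m) (hm : 4 ≤ m) (hD : g.G 1 1 ≠ g.H 1 1) (h1 : g.t 1 = g.s 1)
    (h2 : g.t 2 = g.s 2) (hk : g.kap 1 2 ≠ 0) (hb : g.t 2 ≠ -g.t 1)
    (h3 : g.s 3 ≠ g.t 1 * g.t 2) (h33 : g.t 3 = g.s 3)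
    (hL : LL (g.t 1) (g.t 2) (g.s 3) (1 - g.lam' 0) (g.mu' 0) = 0)
    (hT : TT (g.t 1) (g.t 2) (g.s 3) (1 - g.lam' 0) (g.mu' 0) = 0)
    (hk3 : g.kap 1 3 ≠ 0) (h4 : g.s 4 * g.t 1 = g.t 2 ^ 2)
    (hA : g.s 3 * (g.t 1 ^ 3 * g.H 1 3 - g.G 1 4) * g.t 2 =
      g.s 4 * (g.t 1 ^ 3 * g.H 1 4 - g.G 1 3)) :
    p8 (g.t 1) (g.t 2) (g.s 3) = 0 ∧ g.kap 1 4 = 0 := by
  have ha := g.t_ne 1 (by omega)
  have hb0 := g.t_ne 2 (by omega)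
  have hc := g.s_ne 3 (by omega)
  have ha1 := t1_sub g (by omega)
  have hb1 := t2_sub g (by omega)
  have hab : g.t 1 - g.t 2 ≠ 0 := sub_ne_zero.2 (g.t_inj 1 2 (by omega) (by omega))
  have hbc : g.t 2 - g.s 3 ≠ 0 := by
    rw [h2]; exact sub_ne_zero.2 (g.s_inj 2 3 (by omega) (by omega))
  have habc : g.t 1 * g.t 2 - g.s 3 ≠ 0 := sub_ne_zero.2 (fun h => h3 h.symm)
  have hapb : g.t 1 + g.t 2 ≠ 0 := fun h => hb (by linear_combination h)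
  have had : g.t 1 * g.s 4 = g.t 2 ^ 2 := by linear_combination h4
  have r2 := g.row1G (k := 2) (by omega) (by omega)
  have q2 := g.row1H (k := 2) (by omega) (by omega)
  have r3 := g.row1G (k := 3) (by omega) (by omega)
  have q3 := g.row1H (k := 3) (by omega) (by omega)
  have r4 := g.row1G (k := 4) (by omega) (by omega)
  have q4 := g.row1H (k := 4) (by omega) (by omega)
  rw [← h2] at r2 q2
  have u1 := g.U1 1 2 (by omega) (by omega)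
  have u2 := g.U2 1 2 (by omega) (by omega)
  have u3 := g.U1 1 3 (by omega) (by omega)
  have u4 := g.U2 1 3 (by omega) (by omega)
  simp only [Nat.reduceAdd] at u1 u2 u3 u4
  have hk' := hk
  have hk3' := hk3
  rw [GForm.kap] at hk' hk3'
  rw [lam2 g (by omega) h1 h2 h33 hk] at u1
  rw [mu2 g (by omega) h1 h2 h33 hk] at u2
  obtain ⟨hf, qL, qM, qL3, qM3, hK3, -, hz, hk4⟩ := p5_alg (a := g.t 1) (b := g.t 2) (c := g.s 3)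
    (d := g.s 4) (x := 1 - g.lam' 0) (y := g.mu' 0) (G12 := g.G 1 2) (H12 := g.H 1 2)
    (G13 := g.G 1 3) (H13 := g.H 1 3) (G14 := g.G 1 4) (H14 := g.H 1 4) (L := 1 - g.lam' 2)
    (M := g.mu' 2) (L3 := 1 - g.lam 3) (M3 := g.mu 3) ha hb0 hc ha1 hb1 hab habc hapb had hL hT hA
    (by rw [r2]; ring) q2 (by rw [r3]; ring) q3 (by rw [r4]; ring) q4 hk' hk3'
    (by rw [u1]; ring) (by rw [u2]; ring) (by rw [u3]; ring) (by rw [u4]; ring)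
  obtain ⟨h5, h6⟩ := p5_fin ha hb0 hc hb1 hab hbc habc had hf
    (sub_ne_zero.2 (g.lam_ne 3 (by omega)).symm) qL qM qL3 qM3 hK3
    (hz (axy_ne g (by omega) hD h1)) (cell34 g hm hD h1 h2 h33) (cell34_dual g hm hD h1 h2 h33)
  refine ⟨h5, ?_⟩
  rw [GForm.kap]
  exact hk4 h6

end Pool.Agent.Helper16.IP
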