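import Pool.Agent.Helper54.IP.CTools
import Pool.Agent.Helper14.IP.Newton

/-!
TH-P phase 2: the split numbers of the transposed and of the reversed corner.
With `R = s_m ^ (n-2) / t_(n-1) ^ (m-1)` the split numbers of the reversal are
`f'_n = -(t_(n-1) ^ (n-2) / t_n ^ n) * (R f_n + (1 - R) P_n / P_(n-1))`, `P_n = ∏_{l<n} (t_n - t_l)`.
-/

namespace Pool.Agent.Helper16.IP

open Pool.Agent.Helper54.IP Finset

variable {F : Type*} [Field F] {m : ℕ}

/-- the split numbers of the reversal -/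
def revF (m : ℕ) (t s f : ℕ → F) (n : ℕ) : F :=
  -(t (n - 1) ^ (n - 1) / (t (n - 1) * t n ^ n)) *
    (s m ^ (n - 1) / (s m * t (n - 1) ^ (m - 1)) * f n +
      (1 - s m ^ (n - 1) / (s m * t (n - 1) ^ (m - 1))) *
        ((∏ l ∈ range n, (t n - t l)) / ∏ l ∈ range (n - 1), (t (n - 1) - t l)))

theorem prod_t_ne (g : GForm F m) {k : ℕ} (hk : k ≤ m) :
    ∏ l ∈ range k, (g.t k - g.t l) ≠ 0 := by
  rw [prod_ne_zero_iff]
  intro l hl
  have hl' := mem_range.1 hl
  exact sub_ne_zero.2 (g.t_inj l k hl' hk).symm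

/-- transposition does not change the split numbers -/
theorem isPhi_swap {g : GForm F m} {f : ℕ → F} (hf : g.IsPhi f) : g.swap.IsPhi f := by
  intro k hk
  have h1 := hf k hk
  have h2 := Pool.Agent.Helper14.IP.dg g hk
  have n1 := prod_t_ne g.swap (k := k) (by omega)
  have n2 : (1 - g.lam k) ≠ 0 := sub_ne_zero.2 (g.lam_ne k hk).symm
  simp only [GForm.swap_t] at n1
  simp only [GForm.swap_s, GForm.swap_lam]
  apply mul_left_cancel₀ (mul_ne_zero n1 n2)
  linear_combination (-1 : F) * h2 + (1 - g.lam' k) * (∏ i ∈ range k, (g.t k - g.t i)) * h1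

theorem isPhi_rev {g : GForm F m} (h : g.Closed) {f : ℕ → F} (hf : g.IsPhi f) :
    (g.rev h).IsPhi (revF m g.t g.s f) := by
  have key : (g.rev h).swap.IsPhi (revF m g.t g.s f) := by
    intro k hk
    obtain ⟨κ, hκ⟩ : ∃ κ, κ + 1 = m := ⟨m - 1, by omega⟩
    have eκ : m - 1 = κ := by omega
    have ep := isPhi_swap hf k hk
    simp only [GForm.swap_s, GForm.swap_lam] at ep
    have q0 := Pool.Agent.Helper14.IP.prod_inv_sub (t := g.t) k (g.t_ne k (by omega))
      (fun i hi => g.t_ne i (by omega))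
    have q1 := Pool.Agent.Helper14.IP.prod_inv_sub (t := g.t) (k + 1) (g.t_ne (k + 1) (by omega))
      (fun i hi => g.t_ne i (by omega))
    rw [prod_range_succ g.t] at q1
    have v := g.V1 k m hk le_rfl
    have r := h.row' hκ (j := k) (by omega)
    have nG := h.G_ne (j := k) (by omega)
    have nH := h.H_ne (j := k) (by omega)
    have nG1 := h.G_ne (j := k + 1) (by omega)
    have n0 := g.t_ne k (by omega)
    have n1 := g.t_ne (k + 1) (by omega)
    have nw := g.s_ne m le_rfl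
    have nl : (1 - g.lam' k) ≠ 0 := sub_ne_zero.2 (g.lam'_ne k hk).symm
    have nP := prod_t_ne g (k := k) (by omega)
    have nT : ∏ i ∈ range k, g.t i ≠ 0 := prod_ne_zero_iff.2 fun i hi =>
      g.t_ne i (by have := mem_range.1 hi; omega)
    have hs : ((-1 : F)) ^ (k + 1) = -(-1) ^ k := by rw [pow_succ]; ring
    have hs2 : ((-1 : F)) ^ k * (-1) ^ k = 1 := by
      rw [← mul_pow]; simp
    change revF m g.t g.s f (k + 1) * ((∏ l ∈ range k, ((g.t k)⁻¹ - (g.t l)⁻¹)) *
      (1 - g.lam' k * g.s m ^ k * g.H k m / g.G (k + 1) m)) =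
      ∏ l ∈ range (k + 1), ((g.t (k + 1))⁻¹ - (g.t l)⁻¹)
    unfold revF
    simp only [Nat.add_sub_cancel, eκ]
    rw [hs] at q1
    set P0 := ∏ l ∈ range k, (g.t k - g.t l)
    set P1 := ∏ l ∈ range (k + 1), (g.t (k + 1) - g.t l)
    set Q0 := ∏ l ∈ range k, ((g.t k)⁻¹ - (g.t l)⁻¹)
    set Q1 := ∏ l ∈ range (k + 1), ((g.t (k + 1))⁻¹ - (g.t l)⁻¹)
    set T := ∏ i ∈ range k, g.t i
    set a := g.t k
    set b := g.t (k + 1)
    set w := g.s m
    set G0 := g.G k m
    set H0 := g.H k m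
    set G1 := g.G (k + 1) m
    set L := g.lam' k
    set φ := f (k + 1)
    set A := a ^ k
    set B := b ^ (k + 1)
    set W := w ^ k
    set C := a ^ κ
    set sg := ((-1 : F)) ^ k
    have nA : A ≠ 0 := pow_ne_zero _ n0
    have nB : B ≠ 0 := pow_ne_zero _ n1
    have nC : C ≠ 0 := pow_ne_zero _ n0
    have e1 : 1 - L * W * H0 / G1 = (1 - L) * w * G0 / G1 := by
      rw [eq_div_iff nG1, sub_mul, div_mul_cancel₀ _ nG1]
      linear_combination v
    have e2 : P1 / P0 = φ * (1 - L) := by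
      rw [div_eq_iff nP]
      linear_combination -ep
    have e3 : W / (w * C) * φ + (1 - W / (w * C)) * (P1 / P0) = φ * (G1 / (w * G0)) := by
      rw [e2, r, v, r]
      field_simp
      ring
    rw [e3, e1]
    have e4 : -(A / (a * B)) * (φ * (G1 / (w * G0))) * (Q0 * ((1 - L) * w * G0 / G1)) =
        -(A / (a * B)) * (φ * (1 - L)) * Q0 := by
      field_simp
    rw [e4, ← e2]
    have n5 : a * B * T * P0 ≠ 0 := mul_ne_zero (mul_ne_zero (mul_ne_zero n0 nB) nT) nP
    apply mul_left_cancel₀ n5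
    have e5 : a * B * T * P0 * (-(A / (a * B)) * (P1 / P0) * Q0) = -(P1 * (Q0 * (A * T))) := by
      field_simp
    rw [e5, q0]
    linear_combination (-P0) * q1
  have := isPhi_swap key
  rwa [GForm.swap_swap] at this

/-- the parameter array of the transposed pair -/
theorem IsPA_swap {t s f : ℕ → F} (h : IsPA m t s f) : IsPA m s t f := by
  obtain ⟨g, hc, ht, hs, hf⟩ := h
  exact ⟨g.swap, hc.swap, hs, ht, isPhi_swap hf⟩

theorem revF_congr {t s f t' s' : ℕ → F} (ht : ∀ i, i ≤ m → t i = t' i)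
    (hs : ∀ i, i ≤ m → s i = s' i) {n : ℕ} (hn : n ≤ m) : revF m t s f n = revF m t' s' f n := by
  unfold revF
  have e1 : ∏ l ∈ range n, (t n - t l) = ∏ l ∈ range n, (t' n - t' l) := by
    refine prod_congr rfl fun l hl => ?_
    have := mem_range.1 hl
    rw [ht n hn, ht l (by omega)]
  have e2 : ∏ l ∈ range (n - 1), (t (n - 1) - t l) = ∏ l ∈ range (n - 1), (t' (n - 1) - t' l) := by
    refine prod_congr rfl fun l hl => ?_
    have := mem_range.1 hl
    rw [ht (n - 1) (by omega), ht l (by omega)]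
  rw [e1, e2, ht n hn, ht (n - 1) (by omega), hs m le_rfl]

/-- the parameter array of the reversed pair `(K⁻¹, K*)` -/
theorem IsPA_rev {t s f : ℕ → F} (h : IsPA m t s f) :
    IsPA m (fun i => (t i)⁻¹) (fun i => s (m - i) / s m) (revF m t s f) := by
  obtain ⟨g, hc, ht, hs, hf⟩ := h
  refine ⟨g.rev hc, hc.rev, fun i hi => ?_, fun i hi => ?_, ?_⟩
  · rw [GForm.rev_t, ht i hi]
  · rw [GForm.rev_s, hs (m - i) (by omega), hs m le_rfl]
  · intro k hk
    have := isPhi_rev hc hf k hk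
    rwa [revF_congr ht hs (by omega)] at this

end Pool.Agent.Helper16.IP
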