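import Pool.Agent.Helper16.IP.RevPhi

/-!
TH-P phase 2: the reversal of parameter arrays is an involution.
-/

namespace Pool.Agent.Helper16.IP

open Pool.Agent.Helper54.IP Finset

variable {F : Type*} [Field F] {m : ℕ}

theorem revF_revF {t s f : ℕ → F} (t0 : t 0 = 1) (s0 : s 0 = 1) (ht : ∀ i, i ≤ m → t i ≠ 0)
    (hs : s m ≠ 0) (hd : ∀ i j, i < j → j ≤ m → t i ≠ t j) {n : ℕ} (h1 : 1 ≤ n) (h2 : n ≤ m) :
    revF m (fun i => (t i)⁻¹) (fun i => s (m - i) / s m) (revF m t s f) n = f n := by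
  obtain ⟨k, rfl⟩ : ∃ k, n = k + 1 := ⟨n - 1, by omega⟩
  have q0 := Pool.Agent.Helper14.IP.prod_inv_sub (t := t) k (ht k (by omega))
    (fun i hi => ht i (by omega))
  have q1 := Pool.Agent.Helper14.IP.prod_inv_sub (t := t) (k + 1) (ht (k + 1) (by omega))
    (fun i hi => ht i (by omega))
  rw [prod_range_succ t] at q1
  have n0 := ht k (by omega)
  have n1 := ht (k + 1) (by omega)
  have nP : ∏ l ∈ range k, (t k - t l) ≠ 0 := by
    rw [prod_ne_zero_iff]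
    intro l hl
    have hl' := mem_range.1 hl
    exact sub_ne_zero.2 (hd l k hl' (by omega)).symm
  have nT : ∏ i ∈ range k, t i ≠ 0 := prod_ne_zero_iff.2 fun i hi =>
    ht i (by have := mem_range.1 hi; omega)
  have hsg : ((-1 : F)) ^ (k + 1) = -(-1) ^ k := by rw [pow_succ]; ring
  have hs2 : ((-1 : F)) ^ k ≠ 0 := pow_ne_zero _ (by simp)
  unfold revF
  simp only [Nat.add_sub_cancel, Nat.sub_self, s0, inv_pow]
  rw [hsg] at q1
  set P0 := ∏ l ∈ range k, (t k - t l)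
  set P1 := ∏ l ∈ range (k + 1), (t (k + 1) - t l)
  set Q0 := ∏ l ∈ range k, ((t k)⁻¹ - (t l)⁻¹)
  set Q1 := ∏ l ∈ range (k + 1), ((t (k + 1))⁻¹ - (t l)⁻¹)
  set T := ∏ i ∈ range k, t i
  set a := t k
  set b := t (k + 1)
  set w := s m
  set φ := f (k + 1)
  set A := a ^ k
  set B := b ^ (k + 1)
  set sg := ((-1 : F)) ^ k
  have nA : A ≠ 0 := pow_ne_zero _ n0
  have nB : B ≠ 0 := pow_ne_zero _ n1
  have nC : a ^ (m - 1) ≠ 0 := pow_ne_zero _ n0
  set C := a ^ (m - 1)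
  have nW : w ^ k ≠ 0 := pow_ne_zero _ hs
  rw [div_pow, one_pow]
  set W := w ^ k
  have e0 : Q0 = sg * P0 / (A * T) := by
    rw [eq_div_iff (mul_ne_zero nA nT)]
    exact q0
  have e1 : Q1 = -(sg * P1) / (B * (T * a)) := by
    rw [eq_div_iff (mul_ne_zero nB (mul_ne_zero nT n0)), q1]
    ring
  have e2 : Q1 / Q0 = -(P1 / P0) * (A / (a * B)) := by
    rw [e0, e1]
    field_simp
  rw [e2]
  field_simp
  ring

theorem IsPA_congr {t s f t' s' f' : ℕ → F} (ht : ∀ i, i ≤ m → t i = t' i)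
    (hs : ∀ i, i ≤ m → s i = s' i) (hf : ∀ n, 1 ≤ n → n ≤ m → f n = f' n)
    (h : IsPA m t s f) : IsPA m t' s' f' := by
  obtain ⟨g, hc, h1, h2, h3⟩ := h
  refine ⟨g, hc, fun i hi => (h1 i hi).trans (ht i hi), fun i hi => (h2 i hi).trans (hs i hi),
    fun k hk => ?_⟩
  rw [← hf (k + 1) (by omega) (by omega)]
  exact h3 k hk

/-- reversal of parameter arrays -/
theorem IsPA_rev_iff {t s f : ℕ → F} (t0 : t 0 = 1) (s0 : s 0 = 1) (ht : ∀ i, i ≤ m → t i ≠ 0)
    (hs : s m ≠ 0) (hd : ∀ i j, i < j → j ≤ m → t i ≠ t j) :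
    IsPA m (fun i => (t i)⁻¹) (fun i => s (m - i) / s m) (revF m t s f) ↔ IsPA m t s f := by
  constructor
  · intro h
    refine IsPA_congr (fun i _ => ?_) (fun i hi => ?_) (fun n h1 h2 => ?_) (IsPA_rev h)
    · exact inv_inv _
    · simp only [Nat.sub_self, s0, show m - (m - i) = i by omega]
      field_simp
    · exact revF_revF t0 s0 ht hs hd h1 h2
  · exact IsPA_rev

end Pool.Agent.Helper16.IP
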